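import Mathlib

/-!
# Base size sets and determining sets of dihedral groups

`D_n` is the dihedral group of order `2 n`, and `w` the number of prime divisors of `n`.

* The base sizes of the faithful actions of `D_n` are `1, ..., w + 1`.
* The base sizes of the actions on the vertices of graphs with automorphism group `D_n` are
  `1, ..., w + 1` if `n` is a prime, or twice a prime, or every odd prime divisor of `n` divides `n`
  at least twice, and `1, ..., w` for all other `n`.

Upper bound.  If `r ^ (n / p)` moves the vertex `v_p` for every prime divisor `p` of `n`, then only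
the identity and at most one reflection fix all the `v_p`.  If `q` is an odd prime that divides `n`
exactly once, `n` is neither `q` nor `2 q`, and the base size is `w + 1`, then some reflection in the
stabiliser of the `v_p`, `p ≠ q`, restricted to the vertices moved by `r ^ (n / q)` and extended by
the identity, is an automorphism of the graph; but it is not in `D_n`.

Constructions.  For coprime factors `N_i` of `n` and divisors `M_i` of `N_i`, take for every `i` a
cycle of length `2 N_i` with its two colour classes and the set of edges of the quotient cycle of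
length `2 M_i` (on which the dihedral group of order `2 M_i` acts regularly); two further vertices
record the parity of these edges and link the factors.  Vertex colours are removed by a gadget.
-/

set_option autoImplicit false
set_option linter.unusedVariables false
set_option linter.unusedSimpArgs false
set_option maxHeartbeats 4000000

namespace Pool.Agent.Results.MP_4c7f2d_al.DihedralBases

open DihedralGroup

section A1
/-- `B` is a base for the action of `G` on `S`. -/
def IsBase (G : Type*) {S : Type*} [Group G] [MulAction G S] (B : Finset S) : Prop :=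
  ∀ g : G, (∀ x ∈ B, g • x = x) → g = 1

/-- the base size: the least cardinality of a base -/
noncomputable def baseSize (G : Type*) (S : Type*) [Group G] [MulAction G S] : ℕ :=
  sInf {k | ∃ B : Finset S, B.card = k ∧ IsBase G B}

/-- the base size set of `G` -/
def baseSizeSet (G : Type) [Group G] : Set ℕ :=
  {b | ∃ (S : Type) (_ : Fintype S) (_ : MulAction G S), FaithfulSMul G S ∧ b = baseSize G S}

/-- the determining set of `G` -/
def determiningSet (G : Type) [Group G] : Set ℕ :=
  {b | ∃ (V : Type) (_ : Fintype V) (_ : MulAction G V) (Γ : SimpleGraph V), FaithfulSMul G V ∧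
    (∀ σ : Equiv.Perm V, (∀ u v, Γ.Adj (σ u) (σ v) ↔ Γ.Adj u v) ↔ ∃ g : G, ∀ v, σ v = g • v) ∧
    b = baseSize G V}

theorem baseSize_eq {G S : Type*} [Group G] [MulAction G S] (k : ℕ)
    (h1 : ∃ B : Finset S, B.card ≤ k ∧ IsBase G B) (h2 : ∀ B : Finset S, IsBase G B → k ≤ B.card) :
    baseSize G S = k := by
  obtain ⟨B, hB, hb⟩ := h1
  have hB' : B.card = k := le_antisymm hB (h2 B hb)
  apply le_antisymm
  · exact Nat.sInf_le ⟨B, hB', hb⟩
  · have hne : {k | ∃ B : Finset S, B.card = k ∧ IsBase G B}.Nonempty := ⟨_, B, rfl, hb⟩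
    obtain ⟨B', hB1, hB2⟩ := Nat.sInf_mem hne
    have := h2 B' hB2
    unfold baseSize
    rw [← hB1]; exact this

theorem isBase_univ {G S : Type*} [Group G] [MulAction G S] [Fintype S] [FaithfulSMul G S] :
    IsBase G (Finset.univ : Finset S) := by
  intro g hg
  apply FaithfulSMul.eq_of_smul_eq_smul (α := S)
  intro a
  rw [hg a (Finset.mem_univ a), one_smul]

theorem exists_base_baseSize {G S : Type*} [Group G] [MulAction G S] [Fintype S]
    [FaithfulSMul G S] : ∃ B : Finset S, B.card = baseSize G S ∧ IsBase G B := by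
  have hne : {k | ∃ B : Finset S, B.card = k ∧ IsBase G B}.Nonempty :=
    ⟨_, Finset.univ, rfl, isBase_univ⟩
  exact Nat.sInf_mem hne

theorem baseSize_le {G S : Type*} [Group G] [MulAction G S] (B : Finset S) (hB : IsBase G B) :
    baseSize G S ≤ B.card := Nat.sInf_le ⟨B, rfl, hB⟩

/-- the coloured graph `(Γ, c)` has colour preserving automorphism group exactly `G` -/
def Realizes (G V : Type*) [Group G] [MulAction G V] (Γ : SimpleGraph V) (c : V → ℕ) : Prop :=
  (∀ (g : G) u v, Γ.Adj u v → Γ.Adj (g • u) (g • v)) ∧ (∀ (g : G) v, c (g • v) = c v) ∧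
  ∀ f : V → V, Function.Injective f → (∀ u v, Γ.Adj (f u) (f v) ↔ Γ.Adj u v) →
    (∀ v, c (f v) = c v) → ∃ g : G, ∀ v, f v = g • v

/-! ### the colour gadget -/

/-- marker vertices: `q j`, and the two vertices `x`, `p` -/
inductive Mk (m : ℕ)
  | q (j : Fin (m + 1)) : Mk m
  | x : Mk m
  | p : Mk m

noncomputable instance (m : ℕ) : Fintype (Mk m) :=
  Fintype.ofInjective (fun z : Mk m => match z with
    | .q j => (Sum.inl j : Fin (m + 1) ⊕ Bool)
    | .x => Sum.inr true
    | .p => Sum.inr false) (by
      intro a b h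
      cases a <;> cases b <;> simp_all)

def gAdj {V : Type*} (Γ : SimpleGraph V) (c : V → ℕ) (m : ℕ) : V ⊕ Mk m → V ⊕ Mk m → Prop
  | .inl u, .inl v => Γ.Adj u v
  | .inl v, .inr (.q j) => (j : ℕ) ≤ c v
  | .inr (.q j), .inl v => (j : ℕ) ≤ c v
  | .inl _, .inr .x => True
  | .inr .x, .inl _ => True
  | .inr .p, .inr .x => True
  | .inr .x, .inr .p => True
  | _, _ => False

def gadget {V : Type*} (Γ : SimpleGraph V) (c : V → ℕ) (m : ℕ) : SimpleGraph (V ⊕ Mk m) where
  Adj a b := gAdj Γ c m a b
  symm := ⟨by
    rintro (u | j | _ | _) (v | k | _ | _) h <;> simp_all [gAdj, SimpleGraph.adj_comm]⟩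
  loopless := ⟨by
    rintro (u | j | _ | _) h <;> simp_all [gAdj]⟩

/-- the action on the gadget -/
@[instance_reducible] def gAct (G V : Type*) [Group G] [MulAction G V] (m : ℕ) : MulAction G (V ⊕ Mk m) where
  smul g a := match a with
    | .inl v => .inl (g • v)
    | .inr z => .inr z
  one_smul := by
    rintro (v | z)
    · show Sum.inl ((1 : G) • v) = _
      rw [one_smul]
    · rfl
  mul_smul := by
    rintro g h (v | z)
    · show Sum.inl ((g * h) • v) = Sum.inl (g • h • v)
      rw [mul_smul]
    · rfl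

theorem gadget_mem {G V : Type} [Group G] [MulAction G V] [Fintype V] [FaithfulSMul G V]
    (Γ : SimpleGraph V) (c : V → ℕ) (m : ℕ) (hR : Realizes G V Γ c)
    (hc : ∀ j ≤ m, ∃ v, c v = j) (hle : ∀ v, c v ≤ m)
    (v₁ v₂ : V) (hv : v₁ ≠ v₂) (h₁ : c v₁ = m) (h₂ : c v₂ = m) :
    baseSize G V ∈ determiningSet G := by
  classical
  obtain ⟨hR1, hR2, hR3⟩ := hR
  let act := gAct G V m
  have sl : ∀ (g : G) (v : V), g • (Sum.inl v : V ⊕ Mk m) = Sum.inl (g • v) := fun _ _ => rfl
  have sr : ∀ (g : G) (z : Mk m), g • (Sum.inr z : V ⊕ Mk m) = Sum.inr z := fun _ _ => rfl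
  have hbase : baseSize G (V ⊕ Mk m) = baseSize G V := by
    apply baseSize_eq
    · obtain ⟨B, hB, hb⟩ := exists_base_baseSize (G := G) (S := V)
      refine ⟨B.map Function.Embedding.inl, by rw [Finset.card_map]; exact hB.le, ?_⟩
      intro g hg
      apply hb
      intro x hx
      have := hg (Sum.inl x) (Finset.mem_map.mpr ⟨x, hx, rfl⟩)
      rw [sl] at this
      exact Sum.inl_injective this
    · intro B hB
      have : IsBase G (B.preimage (Sum.inl : V → V ⊕ Mk m) (Sum.inl_injective.injOn)) := by
        intro g hg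
        apply hB
        rintro (v | z) hx
        · rw [sl, hg v (by simpa using hx)]
        · rfl
      refine (baseSize_le _ this).trans ?_
      rw [← Finset.card_map Function.Embedding.inl]
      apply Finset.card_le_card
      intro a ha
      simp only [Finset.mem_map, Finset.mem_preimage, Function.Embedding.inl_apply] at ha
      obtain ⟨a, ha, rfl⟩ := ha
      exact ha
  have hfaith : FaithfulSMul G (V ⊕ Mk m) := by
    refine ⟨fun {g h} hgh => ?_⟩
    apply FaithfulSMul.eq_of_smul_eq_smul (α := V)
    intro a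
    have := hgh (Sum.inl a)
    rw [sl, sl] at this
    exact Sum.inl_injective this
  refine ⟨V ⊕ Mk m, inferInstance, act, gadget Γ c m, hfaith, ?_, hbase.symm⟩
  intro σ
  constructor
  · intro hσ
    have hadj : ∀ u v, gAdj Γ c m (σ u) (σ v) ↔ gAdj Γ c m u v := hσ
    -- the leaf
    have hleaf : ∀ w : V ⊕ Mk m, (∀ a b, gAdj Γ c m w a → gAdj Γ c m w b → a = b) →
        w = Sum.inr .p := by
      rintro (v | j | _ | _) h
      · exact absurd (h (.inr .x) (.inr (.q 0)) trivial (Nat.zero_le _)) (by simp)
      · have hj : (j : ℕ) ≤ m := by omega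
        have := h (.inl v₁) (.inl v₂) (by show (j : ℕ) ≤ c v₁; omega)
          (by show (j : ℕ) ≤ c v₂; omega)
        exact absurd (Sum.inl_injective this) hv
      · exact absurd (h (.inl v₁) (.inr .p) trivial trivial) (by simp)
      · rfl
    have hp1 : ∀ a, gAdj Γ c m (.inr .p) a → a = .inr .x := by
      rintro (v | j | _ | _) h
      · exact h.elim
      · exact h.elim
      · rfl
      · exact h.elim
    have hp : σ (.inr .p) = .inr .p := by
      apply hleaf
      intro a b ha hb
      have ha' : gAdj Γ c m (.inr .p) (σ.symm a) := by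
        rw [← hadj, Equiv.apply_symm_apply]; exact ha
      have hb' : gAdj Γ c m (.inr .p) (σ.symm b) := by
        rw [← hadj, Equiv.apply_symm_apply]; exact hb
      have := (hp1 _ ha').trans (hp1 _ hb').symm
      exact σ.symm.injective this
    have hx : σ (.inr .x) = .inr .x := by
      apply hp1
      have h0 : gAdj Γ c m (σ (.inr .p)) (σ (.inr .x)) := (hadj _ _).mpr trivial
      rw [hp] at h0
      exact h0
    have hV : ∀ v, ∃ u, σ (.inl v) = .inl u := by
      intro v
      have h1 : gAdj Γ c m (σ (.inr .x)) (σ (.inl v)) := (hadj _ _).mpr trivial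
      rw [hx] at h1
      rcases hs : σ (.inl v) with (u | j | _ | _)
      · exact ⟨u, rfl⟩
      · rw [hs] at h1; exact h1.elim
      · rw [hs] at h1; exact h1.elim
      · exact absurd (σ.injective (hs.trans hp.symm)) (by simp)
    choose f hf using hV
    have hq : ∀ j, σ (.inr (.q j)) = .inr (.q j) := by
      intro j
      have h1 : ¬ gAdj Γ c m (σ (.inr .x)) (σ (.inr (.q j))) := fun h => (hadj _ _).mp h
      rw [hx] at h1
      rcases hs : σ (.inr (.q j)) with (u | k | _ | _)
      · rw [hs] at h1; exact absurd trivial h1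
      · have hcard : ∀ (i : Fin (m + 1)), (Finset.univ.filter (fun v => (i : ℕ) ≤ c v)).card =
            (Finset.univ.filter (fun a : V ⊕ Mk m => gAdj Γ c m (.inr (.q i)) a)).card := by
          intro i
          rw [← Finset.card_map Function.Embedding.inl]
          congr 1
          ext a
          simp only [Finset.mem_map, Finset.mem_filter, Finset.mem_univ, true_and,
            Function.Embedding.inl_apply]
          constructor
          · rintro ⟨v, hv, rfl⟩; exact hv
          · rcases a with (v | j' | _ | _)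
            · intro hv; exact ⟨v, hv, rfl⟩
            · intro hv; exact hv.elim
            · intro hv; exact hv.elim
            · intro hv; exact hv.elim
        have h2 : (Finset.univ.filter (fun a : V ⊕ Mk m => gAdj Γ c m (.inr (.q j)) a)).card =
            (Finset.univ.filter (fun a : V ⊕ Mk m => gAdj Γ c m (.inr (.q k)) a)).card := by
          apply Finset.card_bij (fun a _ => σ a)
          · intro a ha
            simp only [Finset.mem_filter, Finset.mem_univ, true_and] at ha ⊢
            rw [← hs, hadj]; exact ha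
          · intro a _ b _ h; exact σ.injective h
          · intro b hb
            refine ⟨σ.symm b, ?_, by simp⟩
            simp only [Finset.mem_filter, Finset.mem_univ, true_and] at hb ⊢
            rw [← hadj, hs, Equiv.apply_symm_apply]; exact hb
        rw [← hcard, ← hcard] at h2
        have hanti : ∀ a b : Fin (m + 1), a < b →
            (Finset.univ.filter (fun v => (b : ℕ) ≤ c v)).card <
            (Finset.univ.filter (fun v => (a : ℕ) ≤ c v)).card := by
          intro a b hab
          apply Finset.card_lt_card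
          rw [Finset.ssubset_iff_of_subset]
          · obtain ⟨v, hv⟩ := hc a (by omega)
            refine ⟨v, by simp [hv], ?_⟩
            simp only [Finset.mem_filter, Finset.mem_univ, true_and, hv]
            have : (a : ℕ) < b := hab
            omega
          · intro v
            simp only [Finset.mem_filter, Finset.mem_univ, true_and]
            have : (a : ℕ) < b := hab
            omega
        rcases lt_trichotomy j k with h | h | h
        · have := hanti _ _ h; omega
        · rw [h]
        · have := hanti _ _ h; omega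
      · exact absurd (σ.injective (hs.trans hx.symm)) (by simp)
      · exact absurd (σ.injective (hs.trans hp.symm)) (by simp)
    obtain ⟨g, hg⟩ := hR3 f (by
        intro a b h
        have : σ (.inl a) = σ (.inl b) := by rw [hf, hf, h]
        exact Sum.inl_injective (σ.injective this))
      (by
        intro u v
        have := hadj (.inl u) (.inl v)
        rw [hf, hf] at this
        exact this)
      (by
        intro v
        have key : ∀ j : Fin (m + 1), (j : ℕ) ≤ c (f v) ↔ (j : ℕ) ≤ c v := by
          intro j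
          have := hadj (.inl v) (.inr (.q j))
          rw [hf, hq] at this
          exact this
        have k1 := key ⟨c v, by have := hle v; omega⟩
        have k2 := key ⟨c (f v), by have := hle (f v); omega⟩
        simp at k1 k2
        omega)
    refine ⟨g, ?_⟩
    rintro (v | j | _ | _)
    · rw [hf, sl, hg]
    · rw [hq]; rfl
    · rw [hx]; rfl
    · rw [hp]; rfl
  · rintro ⟨g, hg⟩
    have hadj : ∀ (g : G) (u v : V ⊕ Mk m), gAdj Γ c m u v → gAdj Γ c m (g • u) (g • v) := by
      rintro g (u | j | _ | _) (v | k | _ | _) h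
      all_goals first
        | exact hR1 g _ _ h
        | (show _ ≤ c (g • _); rw [hR2]; exact h)
        | exact h
    intro u v
    show gAdj Γ c m (σ u) (σ v) ↔ gAdj Γ c m u v
    rw [hg, hg]
    refine ⟨fun h => ?_, hadj g u v⟩
    have := hadj g⁻¹ _ _ h
    simpa using this

end A1

section A2
/-- the action of the dihedral group on an abelian group `A` through `κ`, with shift `e` -/
def dA {n : ℕ} {A : Type*} [AddCommGroup A] (κ : ZMod n →+ A) (e : A) :
    DihedralGroup n → A → A
  | r i, x => x + κ i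
  | sr i, x => e - x - κ i

theorem dA_one {n : ℕ} {A : Type*} [AddCommGroup A] (κ : ZMod n →+ A) (e x : A) :
    dA κ e 1 x = x := by
  rw [one_def]; simp [dA]

theorem dA_mul {n : ℕ} {A : Type*} [AddCommGroup A] (κ : ZMod n →+ A) (e : A)
    (g h : DihedralGroup n) (x : A) : dA κ e (g * h) x = dA κ e g (dA κ e h x) := by
  rcases g with i | i <;> rcases h with j | j <;>
    simp only [r_mul_r, r_mul_sr, sr_mul_r, sr_mul_sr, dA, map_add, map_sub] <;> abel

/-- whether `g` is a reflection -/
def isR {n : ℕ} : DihedralGroup n → Bool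
  | r _ => false
  | sr _ => true

theorem isR_one {n : ℕ} : isR (1 : DihedralGroup n) = false := by
  rw [one_def]; rfl

theorem isR_mul {n : ℕ} (g h : DihedralGroup n) : isR (g * h) = xor (isR g) (isR h) := by
  rcases g with i | i <;> rcases h with j | j <;>
    simp [r_mul_r, r_mul_sr, sr_mul_r, sr_mul_sr, isR]

/-- maps of the two colour classes of a `2n`-cycle preserving adjacency come from the dihedral
group -/
theorem cyc {n : ℕ} (hn : 2 ≤ n) (f f' : ZMod n → ZMod n) (hf : Function.Injective f)
    (hf' : Function.Injective f')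
    (h : ∀ x y, (f' y = f x ∨ f' y = f x + 1) ↔ (y = x ∨ y = x + 1)) :
    (∃ c, ∀ x, f x = x + c ∧ f' x = x + c) ∨ (∃ c, ∀ x, f x = - x - c ∧ f' x = 1 - x - c) := by
  haveI : Fact (1 < n) := ⟨hn⟩
  haveI : NeZero n := ⟨by omega⟩
  have h10 : (1 : ZMod n) ≠ 0 := one_ne_zero
  have hne : ∀ x : ZMod n, x ≠ x + 1 := by
    intro x hx
    exact h10 (by simpa using hx.symm)
  have hne2 : ∀ x : ZMod n, f x ≠ f (x + 1) := fun x hx => hne x (hf hx)
  have hne3 : ∀ x : ZMod n, f' x ≠ f' (x + 1) := fun x hx => hne x (hf' hx)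
  have e1 : ∀ x, f' x = f x ∨ f' x = f x + 1 := fun x => (h x x).mpr (Or.inl rfl)
  have e2 : ∀ x, f' (x + 1) = f x ∨ f' (x + 1) = f x + 1 := fun x => (h x (x + 1)).mpr (Or.inr rfl)
  have cast : ∀ x : ZMod n, ∃ k : ℕ, (k : ZMod n) = x := fun x => ⟨x.val, ZMod.natCast_zmod_val x⟩
  rcases e1 0 with h0 | h0
  · left
    refine ⟨f 0, ?_⟩
    have key : ∀ k : ℕ, f (k : ZMod n) = k + f 0 ∧ f' (k : ZMod n) = k + f 0 := by
      intro k
      induction k with
      | zero => simp [h0]
      | succ k ih =>
        obtain ⟨ih1, ih2⟩ := ih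
        push_cast
        have a1 : f' ((k : ZMod n) + 1) = f k + 1 := by
          rcases e2 k with h3 | h3
          · exact absurd (by rw [ih2, h3, ih1]) (hne3 k)
          · exact h3
        have a2 : f' ((k : ZMod n) + 1) = f ((k : ZMod n) + 1) := by
          rcases e1 ((k : ZMod n) + 1) with h3 | h3
          · exact h3
          · exfalso
            rw [a1] at h3
            exact hne2 k (by linear_combination h3)
        constructor
        · rw [← a2, a1, ih1]; ring
        · rw [a1, ih1]; ring
    intro x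
    obtain ⟨k, rfl⟩ := cast x
    exact key k
  · right
    refine ⟨- f 0, ?_⟩
    have key : ∀ k : ℕ, f (k : ZMod n) = - k + f 0 ∧ f' (k : ZMod n) = 1 - k + f 0 := by
      intro k
      induction k with
      | zero => simp [h0]; ring
      | succ k ih =>
        obtain ⟨ih1, ih2⟩ := ih
        push_cast
        have a1 : f' ((k : ZMod n) + 1) = f k := by
          rcases e2 k with h3 | h3
          · exact h3
          · exact absurd (by rw [ih2, h3, ih1]; ring) (hne3 k)
        have a2 : f' ((k : ZMod n) + 1) = f ((k : ZMod n) + 1) + 1 := by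
          rcases e1 ((k : ZMod n) + 1) with h3 | h3
          · exact absurd (a1.symm.trans h3) (hne2 k)
          · exact h3
        constructor
        · have := a2.symm.trans a1
          rw [ih1] at this
          linear_combination this
        · rw [a1, ih1]; ring
    intro x
    obtain ⟨k, rfl⟩ := cast x
    refine ⟨?_, ?_⟩
    · rw [(key k).1]; ring
    · rw [(key k).2]; ring

/-! ### the coloured cycle -/

/-- vertices of the coloured `2n`-cycle -/
inductive VH (n : ℕ) : Type
  | a (x : ZMod n) : VH n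
  | b (x : ZMod n) : VH n

noncomputable instance (n : ℕ) [NeZero n] : Fintype (VH n) :=
  Fintype.ofInjective (fun z : VH n => match z with
    | .a x => (Sum.inl x : ZMod n ⊕ ZMod n)
    | .b x => Sum.inr x) (by
      intro a b h
      cases a <;> cases b <;> simp_all)

instance (n : ℕ) : MulAction (DihedralGroup n) (VH n) where
  smul g v := match v with
    | .a x => .a (dA (AddMonoidHom.id _) 0 g x)
    | .b x => .b (dA (AddMonoidHom.id _) 1 g x)
  one_smul := by
    rintro (x | x)
    · exact congrArg VH.a (dA_one _ _ _)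
    · exact congrArg VH.b (dA_one _ _ _)
  mul_smul := by
    rintro g h (x | x)
    · exact congrArg VH.a (dA_mul _ _ _ _ _)
    · exact congrArg VH.b (dA_mul _ _ _ _ _)

def hAdj (n : ℕ) : VH n → VH n → Prop
  | .a x, .b y => y = x ∨ y = x + 1
  | .b y, .a x => y = x ∨ y = x + 1
  | _, _ => False

def ΓH (n : ℕ) : SimpleGraph (VH n) where
  Adj := hAdj n
  symm := ⟨by rintro (x | x) (y | y) h <;> exact h⟩
  loopless := ⟨by rintro (x | x) h <;> exact h⟩

def cH (n : ℕ) : VH n → ℕ
  | .a _ => 0
  | .b _ => 1

theorem realizes_H {n : ℕ} (hn : 2 ≤ n) : Realizes (DihedralGroup n) (VH n) (ΓH n) (cH n) := by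
  refine ⟨?_, ?_, ?_⟩
  · have key : ∀ (g : DihedralGroup n) (x y : ZMod n), (y = x ∨ y = x + 1) →
        (dA (AddMonoidHom.id _) 1 g y = dA (AddMonoidHom.id _) 0 g x ∨
          dA (AddMonoidHom.id _) 1 g y = dA (AddMonoidHom.id _) 0 g x + 1) := by
      rintro (i | i) x y (rfl | rfl)
      · left; simp [dA]
      · right; simp [dA]; ring
      · right; simp [dA]; ring
      · left; simp [dA]
    rintro g (x | x) (y | y) h
    · exact h
    · exact key g x y h
    · exact key g y x h
    · exact h
  · rintro g (x | x) <;> rfl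
  · intro f hf hadj hc
    have h1 : ∀ x : ZMod n, ∃ y : ZMod n, f (.a x) = .a y := by
      intro x
      have := hc (.a x)
      rcases hy : f (.a x) with y | y
      · exact ⟨y, rfl⟩
      · rw [hy] at this; simp [cH] at this
    have h2 : ∀ x : ZMod n, ∃ y : ZMod n, f (.b x) = .b y := by
      intro x
      have := hc (.b x)
      rcases hy : f (.b x) with y | y
      · rw [hy] at this; simp [cH] at this
      · exact ⟨y, rfl⟩
    choose a ha using h1
    choose b hb using h2
    have hai : Function.Injective a := by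
      intro x y hxy
      have : f (.a x) = f (.a y) := by rw [ha, ha, hxy]
      exact VH.a.inj (hf this)
    have hbi : Function.Injective b := by
      intro x y hxy
      have : f (.b x) = f (.b y) := by rw [hb, hb, hxy]
      exact VH.b.inj (hf this)
    have hab : ∀ x y, (b y = a x ∨ b y = a x + 1) ↔ (y = x ∨ y = x + 1) := by
      intro x y
      have := hadj (.a x) (.b y)
      rw [ha, hb] at this
      exact this
    rcases cyc hn a b hai hbi hab with ⟨c, h⟩ | ⟨c, h⟩
    · refine ⟨r c, ?_⟩
      rintro (x | x)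
      · rw [ha]; exact congrArg VH.a (h x).1
      · rw [hb]; exact congrArg VH.b (h x).2
    · refine ⟨sr c, ?_⟩
      rintro (x | x)
      · rw [ha]; refine congrArg VH.a ?_
        rw [(h x).1]; simp [dA]
      · rw [hb]; refine congrArg VH.b ?_
        rw [(h x).2]; simp [dA]

theorem VH_base {n : ℕ} (hn : 2 ≤ n) : baseSize (DihedralGroup n) (VH n) = 2 ∧
    FaithfulSMul (DihedralGroup n) (VH n) := by
  classical
  haveI : Fact (1 < n) := ⟨hn⟩
  have h10 : (1 : ZMod n) ≠ 0 := one_ne_zero
  have hB : IsBase (DihedralGroup n) ({.a 0, .b 0} : Finset (VH n)) := by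
    intro g hg
    have h1 := hg (.a 0) (by simp)
    have h2 := hg (.b 0) (by simp)
    have h1' : dA (AddMonoidHom.id _) 0 g 0 = (0 : ZMod n) := VH.a.inj h1
    have h2' : dA (AddMonoidHom.id _) 1 g 0 = (0 : ZMod n) := VH.b.inj h2
    rcases g with i | i
    · simp [dA] at h1'
      rw [h1', one_def]
    · simp [dA] at h1' h2'
      rw [h1'] at h2'
      simp at h2'
  refine ⟨?_, ?_⟩
  · apply baseSize_eq
    · exact ⟨_, Finset.card_le_two, hB⟩
    · intro B hb
      by_contra hlt
      have hfix : ∀ v : VH n, ∃ i : ZMod n, sr i • v = v := by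
        rintro (x | x)
        · refine ⟨-2 * x, congrArg VH.a ?_⟩
          simp [dA]; ring
        · refine ⟨1 - 2 * x, congrArg VH.b ?_⟩
          simp [dA]; ring
      have : ∃ v : VH n, B ⊆ {v} := by
        have hc : B.card ≤ 1 := by omega
        haveI : Nonempty (VH n) := ⟨VH.a 0⟩
        exact Finset.card_le_one_iff_subset_singleton.mp hc
      obtain ⟨v, hv⟩ := this
      obtain ⟨i, hi⟩ := hfix v
      have := hb (sr i) (by
        intro x hx
        have := hv hx
        rw [Finset.mem_singleton] at this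
        rw [this]; exact hi)
      rw [one_def] at this
      cases this
  · refine ⟨fun {g h} hgh => ?_⟩
    have : h⁻¹ * g = 1 := by
      apply hB
      intro x _
      rw [mul_smul, hgh x, inv_smul_smul]
    exact (inv_mul_eq_one.mp this).symm

end A2

section A3
/-- the homomorphism of dihedral groups induced by `κ` -/
def redHom {n n' : ℕ} (κ : ZMod n →+ ZMod n') : DihedralGroup n →* DihedralGroup n' where
  toFun g := match g with
    | r i => r (κ i)
    | sr i => sr (κ i)
  map_one' := by
    rw [one_def, one_def]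
    show r (κ 0) = r 0
    rw [map_zero]
  map_mul' := by
    rintro (i | i) (j | j)
    · show r (κ (i + j)) = r (κ i) * r (κ j)
      rw [r_mul_r, map_add]
    · show sr (κ (j - i)) = r (κ i) * sr (κ j)
      rw [r_mul_sr, map_sub]
    · show sr (κ (i + j)) = sr (κ i) * r (κ j)
      rw [sr_mul_r, map_add]
    · show r (κ (j - i)) = sr (κ i) * sr (κ j)
      rw [sr_mul_sr, map_sub]

inductive VT (V : Type) : Type
  | v (x : V) : VT V
  | t (x : ZMod 2) : VT V

noncomputable instance (V : Type) [Fintype V] : Fintype (VT V) :=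
  Fintype.ofInjective (fun z : VT V => match z with
    | .v x => (Sum.inl x : V ⊕ ZMod 2)
    | .t x => Sum.inr x) (by
      intro a b h
      cases a <;> cases b <;> simp_all)

@[instance_reducible] def tAct {n n' : ℕ} (κ' : ZMod n →+ ZMod n') (κ₂ : ZMod n →+ ZMod 2) (V : Type)
    [MulAction (DihedralGroup n') V] : MulAction (DihedralGroup n) (VT V) where
  smul g z := match z with
    | .v x => .v (redHom κ' g • x)
    | .t x => .t (dA κ₂ 0 g x)
  one_smul := by
    rintro (x | x)
    · refine congrArg VT.v ?_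
      show redHom κ' 1 • x = x
      rw [map_one, one_smul]
    · exact congrArg VT.t (dA_one _ _ _)
  mul_smul := by
    rintro g h (x | x)
    · refine congrArg VT.v ?_
      show redHom κ' (g * h) • x = redHom κ' g • redHom κ' h • x
      rw [map_mul, mul_smul]
    · exact congrArg VT.t (dA_mul _ _ _ _ _)

def tAdj {V : Type} (Γ : SimpleGraph V) : VT V → VT V → Prop
  | .v x, .v y => Γ.Adj x y
  | _, _ => False

def tGraph {V : Type} (Γ : SimpleGraph V) : SimpleGraph (VT V) where
  Adj := tAdj Γ
  symm := ⟨by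
    rintro (x | x) (y | y) h <;> first | exact (show Γ.Adj _ _ from h).symm | exact h⟩
  loopless := ⟨by
    rintro (x | x) h <;> first | exact (show Γ.Adj _ _ from h).ne rfl | exact h⟩

def tCol {V : Type} (c : V → ℕ) (m : ℕ) : VT V → ℕ
  | .v x => c x
  | .t _ => m + 1

theorem addT {n n' : ℕ} (κ' : ZMod n →+ ZMod n') (κ₂ : ZMod n →+ ZMod 2)
    (hinj : ∀ i, κ' i = 0 → κ₂ i = 0 → i = 0)
    (hsurj : ∀ a b, ∃ i, κ' i = a ∧ κ₂ i = b)
    {V : Type} [Fintype V] [MulAction (DihedralGroup n') V] [FaithfulSMul (DihedralGroup n') V]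
    (Γ : SimpleGraph V) (c : V → ℕ) (m : ℕ) (hR : Realizes (DihedralGroup n') V Γ c)
    (hc : ∀ j ≤ m, ∃ v, c v = j) (hle : ∀ v, c v ≤ m) :
    baseSize (DihedralGroup n') V + 1 ∈ determiningSet (DihedralGroup n) := by
  classical
  let act := tAct κ' κ₂ V
  have sv : ∀ (g : DihedralGroup n) (x : V), g • (VT.v x : VT V) = VT.v (redHom κ' g • x) :=
    fun _ _ => rfl
  have st : ∀ (g : DihedralGroup n) (x : ZMod 2), g • (VT.t x : VT V) = VT.t (dA κ₂ 0 g x) :=
    fun _ _ => rfl
  -- lifting
  have lift : ∀ (g' : DihedralGroup n') (e : ZMod 2), ∃ g : DihedralGroup n, redHom κ' g = g' ∧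
      ∀ x : ZMod 2, dA κ₂ 0 g x = x + e := by
    rintro (i | i) e
    · obtain ⟨j, h1, h2⟩ := hsurj i e
      refine ⟨r j, ?_, ?_⟩
      · show r (κ' j) = r i
        rw [h1]
      · intro x
        show x + κ₂ j = x + e
        rw [h2]
    · obtain ⟨j, h1, h2⟩ := hsurj i e
      refine ⟨sr j, ?_, ?_⟩
      · show sr (κ' j) = sr i
        rw [h1]
      · intro x
        show 0 - x - κ₂ j = x + e
        rw [h2]
        have : ∀ x e : ZMod 2, 0 - x - e = x + e := by decide
        exact this x e
  have hker : ∀ g : DihedralGroup n, redHom κ' g = 1 → dA κ₂ 0 g 0 = (0 : ZMod 2) → g = 1 := by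
    rintro (i | i) h1 h2
    · have h1' : r (κ' i) = (1 : DihedralGroup n') := h1
      rw [one_def] at h1'
      have h1'' : κ' i = 0 := DihedralGroup.r.inj h1'
      have h2' : (0 : ZMod 2) + κ₂ i = 0 := h2
      rw [zero_add] at h2'
      rw [hinj i h1'' h2', one_def]
    · have h1' : sr (κ' i) = (1 : DihedralGroup n') := h1
      rw [one_def] at h1'
      cases h1'
  have hfaith : FaithfulSMul (DihedralGroup n) (VT V) := by
    refine ⟨fun {g h} hgh => ?_⟩
    have : h⁻¹ * g = 1 := by
      have hx : ∀ x : VT V, (h⁻¹ * g) • x = x := by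
        intro x
        rw [mul_smul, hgh x, inv_smul_smul]
      apply hker
      · apply FaithfulSMul.eq_of_smul_eq_smul (α := V)
        intro a
        rw [one_smul]
        have := hx (.v a)
        rw [sv] at this
        exact VT.v.inj this
      · have := hx (.t 0)
        rw [st] at this
        exact VT.t.inj this
    exact (inv_mul_eq_one.mp this).symm
  have hbase : baseSize (DihedralGroup n) (VT V) = baseSize (DihedralGroup n') V + 1 := by
    apply baseSize_eq
    · obtain ⟨B, hB, hb⟩ := exists_base_baseSize (G := DihedralGroup n') (S := V)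
      refine ⟨insert (.t 0) (B.image VT.v), ?_, ?_⟩
      · refine (Finset.card_insert_le _ _).trans ?_
        have := Finset.card_image_le (s := B) (f := VT.v)
        omega
      · intro g hg
        apply hker
        · apply hb
          intro x hx
          have := hg (.v x) (Finset.mem_insert_of_mem (Finset.mem_image_of_mem _ hx))
          rw [sv] at this
          exact VT.v.inj this
        · have := hg (.t 0) (Finset.mem_insert_self _ _)
          rw [st] at this
          exact VT.t.inj this
    · intro B hB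
      have h1 : ∃ x, VT.t x ∈ B := by
        by_contra hno
        push Not at hno
        obtain ⟨g, hg1, hg2⟩ := lift 1 1
        have : g = 1 := by
          apply hB
          rintro (x | x) hx
          · rw [sv, hg1, one_smul]
          · exact absurd hx (hno x)
        have h3 := hg2 0
        rw [this, dA_one] at h3
        exact absurd h3 (by decide)
      obtain ⟨x₀, hx₀⟩ := h1
      have h2 : IsBase (DihedralGroup n') (B.preimage VT.v (fun a _ b _ h => VT.v.inj h)) := by
        intro g' hg'
        obtain ⟨g, hg1, hg2⟩ := lift g' 0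
        have : g = 1 := by
          apply hB
          rintro (x | x) hx
          · rw [sv, hg1, hg' x (Finset.mem_preimage.mpr hx)]
          · rw [st, hg2, add_zero]
        rw [← hg1, this, map_one]
      have h3 := baseSize_le _ h2
      have h4 : (B.preimage VT.v (fun a _ b _ h => VT.v.inj h)).card ≤ (B.erase (.t x₀)).card := by
        apply Finset.card_le_card_of_injOn VT.v
        · intro a ha
          have ha' := Finset.mem_preimage.mp (Finset.mem_coe.mp ha)
          exact Finset.mem_coe.mpr (Finset.mem_erase.mpr ⟨(by intro h; cases h), ha'⟩)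
        · intro a _ b _ h
          exact VT.v.inj h
      rw [Finset.card_erase_of_mem hx₀] at h4
      have : 0 < B.card := Finset.card_pos.mpr ⟨_, hx₀⟩
      omega
  rw [← hbase]
  obtain ⟨hR1, hR2, hR3⟩ := hR
  apply gadget_mem (tGraph Γ) (tCol c m) (m + 1) ?_ ?_ ?_ (.t 0) (.t 1) (by
      intro h
      exact absurd (VT.t.inj h) (by decide)) rfl rfl
  · refine ⟨?_, ?_, ?_⟩
    · rintro g (x | x) (y | y) h
      · exact hR1 _ _ _ h
      · exact h
      · exact h
      · exact h
    · rintro g (x | x)
      · exact hR2 _ _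
      · rfl
    · intro f hf hadj hcol
      have h1 : ∀ x : V, ∃ y : V, f (.v x) = .v y := by
        intro x
        have := hcol (.v x)
        rcases hy : f (.v x) with y | y
        · exact ⟨y, rfl⟩
        · rw [hy] at this
          have h3 := hle x
          simp only [tCol] at this
          omega
      have h2 : ∀ x : ZMod 2, ∃ y : ZMod 2, f (.t x) = .t y := by
        intro x
        have := hcol (.t x)
        rcases hy : f (.t x) with y | y
        · rw [hy] at this
          have h3 := hle y
          simp only [tCol] at this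
          omega
        · exact ⟨y, rfl⟩
      choose a ha using h1
      choose b hb using h2
      obtain ⟨g', hg'⟩ := hR3 a (by
          intro x y hxy
          have : f (.v x) = f (.v y) := by rw [ha, ha, hxy]
          exact VT.v.inj (hf this)) (by
          intro u v
          have := hadj (.v u) (.v v)
          rw [ha, ha] at this
          exact this) (by
          intro v
          have := hcol (.v v)
          rw [ha] at this
          exact this)
      have hb01 : b 0 ≠ b 1 := by
        intro h
        have : f (.t 0) = f (.t 1) := by rw [hb, hb, h]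
        exact absurd (VT.t.inj (hf this)) (by decide)
      have hbx : ∀ x, b x = x + b 0 := by
        have : ∀ p q : ZMod 2, p ≠ q → ∀ x : ZMod 2, (if x = 0 then p else q) = x + p := by decide
        intro x
        rw [← this (b 0) (b 1) hb01 x]
        have : ∀ x : ZMod 2, x = 0 ∨ x = 1 := by decide
        rcases this x with rfl | rfl <;> simp
      obtain ⟨g, hg1, hg2⟩ := lift g' (b 0)
      refine ⟨g, ?_⟩
      rintro (x | x)
      · rw [ha, sv, hg1, hg']
      · rw [hb, st, hg2, hbx]
  · intro j hj
    rcases Nat.lt_or_ge m j with h | h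
    · exact ⟨.t 0, by show m + 1 = j; omega⟩
    · obtain ⟨v, hv⟩ := hc j h
      exact ⟨.v v, hv⟩
  · rintro (x | x)
    · exact (hle x).trans (Nat.le_succ _)
    · exact le_rfl

end A3

section A4
/-- vertices of the linked structure -/
inductive VF {k : ℕ} (N M : Fin k → ℕ) : Type
  | a (i : Fin k) (x : ZMod (N i)) : VF N M
  | b (i : Fin k) (x : ZMod (N i)) : VF N M
  | y (i : Fin k) (x : ZMod (M i)) (δ : Bool) : VF N M
  | s (δ : Bool) : VF N M

noncomputable instance {k : ℕ} (N M : Fin k → ℕ) [∀ i, NeZero (N i)] [∀ i, NeZero (M i)] :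
    Fintype (VF N M) :=
  Fintype.ofInjective (fun z : VF N M => match z with
    | .a i x => (Sum.inl (Sum.inl ⟨i, x⟩) :
        ((Σ i, ZMod (N i)) ⊕ (Σ i, ZMod (N i))) ⊕ (((Σ i, ZMod (M i)) × Bool) ⊕ Bool))
    | .b i x => Sum.inl (Sum.inr ⟨i, x⟩)
    | .y i x δ => Sum.inr (Sum.inl (⟨i, x⟩, δ))
    | .s δ => Sum.inr (Sum.inr δ)) (by
      intro a b h
      cases a <;> cases b <;> simp_all)

/-- the data of the reduction homomorphisms -/
structure Red {k : ℕ} (n : ℕ) (N M : Fin k → ℕ) where
  κ : ∀ i, ZMod n →+ ZMod (N i)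
  μ : ∀ i, ZMod (N i) →+ ZMod (M i)
  μ1 : ∀ i, μ i 1 = 1
  inj : ∀ j, (∀ i, κ i j = 0) → j = 0
  surj : ∀ c : (∀ i, ZMod (N i)), ∃ j, ∀ i, κ i j = c i
  msurj : ∀ i, Function.Surjective (μ i)

variable {k n : ℕ} {N M : Fin k → ℕ}

@[instance_reducible] def fAct (R : Red n N M) : MulAction (DihedralGroup n) (VF N M) where
  smul g z := match z with
    | .a i x => .a i (dA (R.κ i) 0 g x)
    | .b i x => .b i (dA (R.κ i) 1 g x)
    | .y i x δ => .y i (dA ((R.μ i).comp (R.κ i)) 0 g x) (xor δ (isR g))
    | .s δ => .s (xor δ (isR g))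
  one_smul := by
    rintro (⟨i, x⟩ | ⟨i, x⟩ | ⟨i, x, δ⟩ | ⟨δ⟩)
    · exact congrArg (VF.a i) (dA_one _ _ _)
    · exact congrArg (VF.b i) (dA_one _ _ _)
    · show VF.y i (dA ((R.μ i).comp (R.κ i)) 0 1 x) (xor δ (isR (1 : DihedralGroup n))) = _
      rw [dA_one, isR_one]; simp
    · show VF.s (xor δ (isR (1 : DihedralGroup n))) = _
      rw [isR_one]; simp
  mul_smul := by
    rintro g h (⟨i, x⟩ | ⟨i, x⟩ | ⟨i, x, δ⟩ | ⟨δ⟩)
    · exact congrArg (VF.a i) (dA_mul _ _ _ _ _)
    · exact congrArg (VF.b i) (dA_mul _ _ _ _ _)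
    · show VF.y i (dA ((R.μ i).comp (R.κ i)) 0 (g * h) x) (xor δ (isR (g * h))) =
        VF.y i (dA ((R.μ i).comp (R.κ i)) 0 g (dA ((R.μ i).comp (R.κ i)) 0 h x))
          (xor (xor δ (isR h)) (isR g))
      rw [dA_mul, isR_mul]
      congr 1
      cases δ <;> cases isR g <;> cases isR h <;> rfl
    · show VF.s (xor δ (isR (g * h))) = VF.s (xor (xor δ (isR h)) (isR g))
      rw [isR_mul]
      congr 1
      cases δ <;> cases isR g <;> cases isR h <;> rfl

/-- the edges of the linked structure -/
inductive FRel (R : Red n N M) : VF N M → VF N M → Prop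
  | ab0 (i : Fin k) (x : ZMod (N i)) : FRel R (.a i x) (.b i x)
  | ab1 (i : Fin k) (x : ZMod (N i)) : FRel R (.a i x) (.b i (x + 1))
  | ay (i : Fin k) (x : ZMod (N i)) (δ : Bool) : FRel R (.a i x) (.y i (R.μ i x) δ)
  | byT (i : Fin k) (x : ZMod (N i)) : FRel R (.b i x) (.y i (R.μ i x) true)
  | byF (i : Fin k) (x : ZMod (N i)) : FRel R (.b i x) (.y i (R.μ i x - 1) false)
  | ys (i : Fin k) (x : ZMod (M i)) (δ : Bool) : FRel R (.y i x δ) (.s δ)

def fGraph (R : Red n N M) : SimpleGraph (VF N M) where
  Adj u v := FRel R u v ∨ FRel R v u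
  symm := ⟨fun _ _ h => h.symm⟩
  loopless := ⟨by
    rintro (⟨i, x⟩ | ⟨i, x⟩ | ⟨i, x, δ⟩ | ⟨δ⟩) (h | h) <;> cases h⟩

def fCol (N M : Fin k → ℕ) : VF N M → ℕ
  | .a i _ => 3 * i
  | .b i _ => 3 * i + 1
  | .y i _ _ => 3 * i + 2
  | .s _ => 3 * k

theorem FRel_smul (R : Red n N M) (g : DihedralGroup n) (u v : VF N M) (h : FRel R u v) :
    FRel R ((fAct R).toSMul.smul g u) ((fAct R).toSMul.smul g v) := by
  rcases g with j | j
  · cases h with
    | ab0 i x => exact FRel.ab0 i _
    | ab1 i x =>
      have := FRel.ab1 (R := R) i (x + R.κ i j)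
      have e : (x + R.κ i j) + 1 = (x + 1) + R.κ i j := by abel
      rw [e] at this
      exact this
    | ay i x δ =>
      have := FRel.ay (R := R) i (x + R.κ i j) δ
      rw [map_add] at this
      have e : δ = xor δ (isR (r j : DihedralGroup n)) := by simp [isR]
      rw [e] at this
      exact this
    | byT i x =>
      have := FRel.byT (R := R) i (x + R.κ i j)
      rw [map_add] at this
      exact this
    | byF i x =>
      have := FRel.byF (R := R) i (x + R.κ i j)
      rw [map_add] at this
      have e : R.μ i x + R.μ i (R.κ i j) - 1 = (R.μ i x - 1) + R.μ i (R.κ i j) := by abel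
      rw [e] at this
      exact this
    | ys i x δ =>
      exact FRel.ys i _ _
  · cases h with
    | ab0 i x =>
      have := FRel.ab1 (R := R) i (0 - x - R.κ i j)
      have e : (0 - x - R.κ i j) + 1 = 1 - x - R.κ i j := by abel
      rw [e] at this
      exact this
    | ab1 i x =>
      have := FRel.ab0 (R := R) i (0 - x - R.κ i j)
      have e : VF.b (N := N) (M := M) i (0 - x - R.κ i j) = VF.b i (1 - (x + 1) - R.κ i j) := by
        congr 1; abel
      rw [e] at this
      exact this
    | ay i x δ =>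
      have := FRel.ay (R := R) i (0 - x - R.κ i j) (xor δ (isR (sr j : DihedralGroup n)))
      rw [map_sub, map_sub, map_zero] at this
      exact this
    | byT i x =>
      have := FRel.byF (R := R) i (1 - x - R.κ i j)
      rw [map_sub, map_sub, R.μ1] at this
      have e : 1 - R.μ i x - R.μ i (R.κ i j) - 1 = 0 - R.μ i x - R.μ i (R.κ i j) := by abel
      rw [e] at this
      exact this
    | byF i x =>
      have := FRel.byT (R := R) i (1 - x - R.κ i j)
      rw [map_sub, map_sub, R.μ1] at this
      have e : 1 - R.μ i x - R.μ i (R.κ i j) = 0 - (R.μ i x - 1) - R.μ i (R.κ i j) := by abel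
      rw [e] at this
      exact this
    | ys i x δ =>
      exact FRel.ys i _ _

end A4

section A5
variable {k n : ℕ} {N M : Fin k → ℕ}

theorem colA (z : VF N M) (i : Fin k) (h : fCol N M z = 3 * i) : ∃ x, z = .a i x := by
  rcases z with ⟨j, x⟩ | ⟨j, x⟩ | ⟨j, x, δ⟩ | ⟨δ⟩
  · have : j = i := Fin.ext (by simp only [fCol] at h; omega)
    subst this
    exact ⟨x, rfl⟩
  · simp only [fCol] at h; omega
  · simp only [fCol] at h; omega
  · simp only [fCol] at h; have := i.2; omega

theorem colB (z : VF N M) (i : Fin k) (h : fCol N M z = 3 * i + 1) : ∃ x, z = .b i x := by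
  rcases z with ⟨j, x⟩ | ⟨j, x⟩ | ⟨j, x, δ⟩ | ⟨δ⟩
  · simp only [fCol] at h; omega
  · have : j = i := Fin.ext (by simp only [fCol] at h; omega)
    subst this
    exact ⟨x, rfl⟩
  · simp only [fCol] at h; omega
  · simp only [fCol] at h; omega

theorem colY (z : VF N M) (i : Fin k) (h : fCol N M z = 3 * i + 2) :
    ∃ x δ, z = .y i x δ := by
  rcases z with ⟨j, x⟩ | ⟨j, x⟩ | ⟨j, x, δ⟩ | ⟨δ⟩
  · simp only [fCol] at h; omega
  · simp only [fCol] at h; omega
  · have : j = i := Fin.ext (by simp only [fCol] at h; omega)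
    subst this
    exact ⟨x, δ, rfl⟩
  · simp only [fCol] at h; omega

theorem colS (z : VF N M) (h : fCol N M z = 3 * k) : ∃ δ, z = .s δ := by
  rcases z with ⟨j, x⟩ | ⟨j, x⟩ | ⟨j, x, δ⟩ | ⟨δ⟩
  · simp only [fCol] at h; have := j.2; omega
  · simp only [fCol] at h; omega
  · simp only [fCol] at h; omega
  · exact ⟨δ, rfl⟩

theorem adj_ab (R : Red n N M) (i : Fin k) (x y : ZMod (N i)) :
    (fGraph R).Adj (.a i x) (.b i y) ↔ (y = x ∨ y = x + 1) := by
  constructor
  · rintro (h | h)
    · cases h with
      | ab0 => exact Or.inl rfl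
      | ab1 => exact Or.inr rfl
    · cases h
  · rintro (rfl | rfl)
    · exact Or.inl (FRel.ab0 i _)
    · exact Or.inl (FRel.ab1 i _)

theorem adj_ay (R : Red n N M) (i : Fin k) (z : ZMod (N i)) (x : ZMod (M i)) (δ : Bool) :
    (fGraph R).Adj (.a i z) (.y i x δ) ↔ x = R.μ i z := by
  constructor
  · rintro (h | h)
    · cases h; rfl
    · cases h
  · rintro rfl
    exact Or.inl (FRel.ay i _ _)

theorem adj_byT (R : Red n N M) (i : Fin k) (z : ZMod (N i)) (x : ZMod (M i)) :
    (fGraph R).Adj (.b i z) (.y i x true) ↔ x = R.μ i z := by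
  constructor
  · rintro (h | h)
    · cases h; rfl
    · cases h
  · rintro rfl
    exact Or.inl (FRel.byT i _)

theorem adj_byF (R : Red n N M) (i : Fin k) (z : ZMod (N i)) (x : ZMod (M i)) :
    (fGraph R).Adj (.b i z) (.y i x false) ↔ x = R.μ i z - 1 := by
  constructor
  · rintro (h | h)
    · cases h; rfl
    · cases h
  · rintro rfl
    exact Or.inl (FRel.byF i _)

theorem adj_ys (R : Red n N M) (i : Fin k) (x : ZMod (M i)) (δ ε : Bool) :
    (fGraph R).Adj (.y i x δ) (.s ε) ↔ ε = δ := by
  constructor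
  · rintro (h | h)
    · cases h; rfl
    · cases h
  · rintro rfl
    exact Or.inl (FRel.ys i _ _)

theorem realizes_F (R : Red n N M) (hN : ∀ i, 2 ≤ N i) (hM : ∀ i, 2 ≤ M i) (hk : 0 < k) :
    @Realizes (DihedralGroup n) (VF N M) _ (fAct R) (fGraph R) (fCol N M) := by
  let act := fAct R
  refine ⟨?_, ?_, ?_⟩
  · rintro g u v (h | h)
    · exact Or.inl (FRel_smul R g u v h)
    · exact Or.inr (FRel_smul R g v u h)
  · rintro g (⟨i, x⟩ | ⟨i, x⟩ | ⟨i, x, δ⟩ | ⟨δ⟩) <;> rfl
  · intro f hf hadj hcol
    have h1 : ∀ i (x : ZMod (N i)), ∃ y : ZMod (N i), f (.a i x) = .a i y :=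
      fun i x => colA _ i (hcol _)
    have h2 : ∀ i (x : ZMod (N i)), ∃ y : ZMod (N i), f (.b i x) = .b i y :=
      fun i x => colB _ i (hcol _)
    have h3 : ∀ i (x : ZMod (M i)) (δ : Bool), ∃ y ε, f (.y i x δ) = .y i y ε :=
      fun i x δ => colY _ i (hcol _)
    have h4 : ∀ (δ : Bool), ∃ ε, f (.s δ) = .s ε :=
      fun δ => colS _ (hcol _)
    choose fa ha using h1
    choose fb hb using h2
    choose fy fe hy using h3
    choose fs hs using h4
    have hai : ∀ i, Function.Injective (fa i) := by
      intro i x y hxy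
      have : f (.a i x) = f (.a i y) := by rw [ha, ha, hxy]
      have := hf this
      injection this
    have hbi : ∀ i, Function.Injective (fb i) := by
      intro i x y hxy
      have : f (.b i x) = f (.b i y) := by rw [hb, hb, hxy]
      have := hf this
      injection this
    have hc : ∀ i, ∃ (η : Bool) (c : ZMod (N i)), ∀ x, fa i x = (if η then - x - c else x + c) ∧
        fb i x = (if η then 1 - x - c else x + c) := by
      intro i
      have hab : ∀ x y, (fb i y = fa i x ∨ fb i y = fa i x + 1) ↔ (y = x ∨ y = x + 1) := by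
        intro x y
        have := hadj (.a i x) (.b i y)
        rw [ha, hb, adj_ab, adj_ab] at this
        exact this
      rcases cyc (hN i) (fa i) (fb i) (hai i) (hbi i) hab with ⟨c, h⟩ | ⟨c, h⟩
      · exact ⟨false, c, fun x => by simpa using h x⟩
      · exact ⟨true, c, fun x => by simpa using h x⟩
    choose η c hc using hc
    have h10 : ∀ i, (1 : ZMod (M i)) ≠ 0 := by
      intro i
      haveI : Fact (1 < M i) := ⟨hM i⟩
      exact one_ne_zero
    have hyy : ∀ i (z : ZMod (N i)) (δ : Bool), fy i (R.μ i z) δ = R.μ i (fa i z) ∧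
        fe i (R.μ i z) δ = xor δ (η i) := by
      intro i z δ
      have e1 : fy i (R.μ i z) δ = R.μ i (fa i z) := by
        have := hadj (.a i z) (.y i (R.μ i z) δ)
        rw [ha, hy, adj_ay, adj_ay] at this
        exact this.mpr rfl
      refine ⟨e1, ?_⟩
      cases δ
      · have e2 := hadj (.b i (z + 1)) (.y i (R.μ i z) false)
        rw [hb, hy, adj_byF] at e2
        have e3 := e2.mpr (by rw [map_add, R.μ1]; abel)
        cases hη : η i
        · cases he : fe i (R.μ i z) false
          · rfl
          · exfalso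
            rw [he, adj_byT, e1, (hc i z).1, (hc i (z + 1)).2, hη] at e3
            simp only [Bool.false_eq_true, if_false, map_add, R.μ1] at e3
            apply h10 i
            linear_combination -e3
        · cases he : fe i (R.μ i z) false
          · exfalso
            rw [he, adj_byF, e1, (hc i z).1, (hc i (z + 1)).2, hη] at e3
            simp only [if_true, map_add, map_sub, map_neg, R.μ1] at e3
            apply h10 i
            linear_combination e3
          · rfl
      · have e2 := hadj (.b i z) (.y i (R.μ i z) true)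
        rw [hb, hy, adj_byT] at e2
        have e3 := e2.mpr rfl
        cases hη : η i
        · cases he : fe i (R.μ i z) true
          · exfalso
            rw [he, adj_byF, e1, (hc i z).1, (hc i z).2, hη] at e3
            simp only [Bool.false_eq_true, if_false, map_add] at e3
            apply h10 i
            linear_combination e3
          · rfl
        · cases he : fe i (R.μ i z) true
          · rfl
          · exfalso
            rw [he, adj_byT, e1, (hc i z).1, (hc i z).2, hη] at e3
            simp only [if_true, map_add, map_sub, map_neg, R.μ1] at e3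
            apply h10 i
            linear_combination -e3
    have hη : ∀ i δ, fs δ = xor δ (η i) := by
      intro i δ
      have := hadj (.y i (R.μ i 0) δ) (.s δ)
      rw [hy, hs, adj_ys, adj_ys, (hyy i 0 δ).2] at this
      exact this.mpr rfl
    have hη' : ∀ i, η i = fs false := by
      intro i
      rw [hη i false]; simp
    obtain ⟨j, hj⟩ := R.surj c
    have hyx : ∀ i (x : ZMod (M i)) δ, fy i x δ = (if fs false then 0 - x - R.μ i (c i) else
        x + R.μ i (c i)) ∧ fe i x δ = xor δ (fs false) := by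
      intro i x δ
      obtain ⟨z, rfl⟩ := R.msurj i x
      refine ⟨?_, ?_⟩
      · rw [(hyy i z δ).1, (hc i z).1, hη' i]
        cases fs false
        · simp
        · simp
      · rw [(hyy i z δ).2, hη' i]
    cases hfs : fs false
    · refine ⟨r j, ?_⟩
      rintro (⟨i, x⟩ | ⟨i, x⟩ | ⟨i, x, δ⟩ | ⟨δ⟩)
      · rw [ha]
        refine congrArg (VF.a i) ?_
        rw [(hc i x).1, hη' i, hfs, ← hj i]
        simp [dA]
      · rw [hb]
        refine congrArg (VF.b i) ?_
        rw [(hc i x).2, hη' i, hfs, ← hj i]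
        simp [dA]
      · rw [hy, (hyx i x δ).1, (hyx i x δ).2, hfs, ← hj i]
        rfl
      · rw [hs, hη ⟨0, hk⟩ δ, hη', hfs]
        rfl
    · refine ⟨sr j, ?_⟩
      rintro (⟨i, x⟩ | ⟨i, x⟩ | ⟨i, x, δ⟩ | ⟨δ⟩)
      · rw [ha]
        refine congrArg (VF.a i) ?_
        rw [(hc i x).1, hη' i, hfs, ← hj i]
        simp [dA]
      · rw [hb]
        refine congrArg (VF.b i) ?_
        rw [(hc i x).2, hη' i, hfs, ← hj i]
        simp [dA]
      · rw [hy, (hyx i x δ).1, (hyx i x δ).2, hfs, ← hj i]
        rfl
      · rw [hs, hη ⟨0, hk⟩ δ, hη', hfs]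
        rfl

end A5

section A6
variable {k n : ℕ} {N M : Fin k → ℕ}

theorem faithful_of_base {G S : Type*} [Group G] [MulAction G S] (B : Finset S)
    (hB : IsBase G B) : FaithfulSMul G S := by
  refine ⟨fun {g h} hgh => ?_⟩
  have : h⁻¹ * g = 1 := by
    apply hB
    intro x _
    rw [mul_smul, hgh x, inv_smul_smul]
  exact (inv_mul_eq_one.mp this).symm

def idx1 (N M : Fin k → ℕ) : VF N M → ℕ
  | .a i _ => i
  | .b i _ => i
  | .y i _ _ => i
  | .s _ => k

def idx2 (N M : Fin k → ℕ) : VF N M → ℕ
  | .a i _ => i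
  | .b i _ => i
  | .y _ _ _ => k
  | .s _ => k

theorem F_r (R : Red n N M) (j : ZMod n) (z : VF N M) : (fAct R).toSMul.smul (r j) z =
    match z with
    | .a i x => .a i (x + R.κ i j)
    | .b i x => .b i (x + R.κ i j)
    | .y i x δ => .y i (x + R.μ i (R.κ i j)) δ
    | .s δ => .s δ := by
  rcases z with ⟨i, x⟩ | ⟨i, x⟩ | ⟨i, x, δ⟩ | ⟨δ⟩
  · rfl
  · rfl
  · show VF.y i _ (xor δ false) = _
    rw [Bool.xor_false]; rfl
  · show VF.s (xor δ false) = _
    rw [Bool.xor_false]

theorem F_notR (R : Red n N M) (g : DihedralGroup n) (h : isR g = false)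
    (h2 : ∀ j, g = r j → ∀ i, R.κ i j = 0) : g = 1 := by
  rcases g with j | j
  · rw [R.inj j (h2 j rfl), one_def]
  · simp [isR] at h

theorem base_F1 (R : Red n N M) (hN : ∀ i, 2 ≤ N i) (hk : 0 < k)
    (hinj : ∀ i x, R.μ i x = 0 → x = 0) :
    @baseSize (DihedralGroup n) (VF N M) _ (fAct R) = k ∧
    @FaithfulSMul (DihedralGroup n) (VF N M) (fAct R).toSMul := by
  classical
  let act := fAct R
  have hB : IsBase (DihedralGroup n)
      ((Finset.univ : Finset (Fin k)).image (fun i => (VF.y i 0 true : VF N M))) := by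
    intro g hg
    have h1 : ∀ i : Fin k, (VF.y i (dA ((R.μ i).comp (R.κ i)) 0 g 0) (xor true (isR g)) : VF N M) =
        VF.y i 0 true := fun i => hg (.y i 0 true) (Finset.mem_image_of_mem _ (Finset.mem_univ i))
    apply F_notR R
    · have := h1 ⟨0, hk⟩
      injection this with _ _ h3
      revert h3
      cases isR g <;> simp
    · intro j hj i
      have := h1 i
      injection this with _ h2 _
      subst hj
      apply hinj
      have h2' : 0 + R.μ i (R.κ i j) = 0 := h2
      rw [zero_add] at h2'
      exact h2'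
  refine ⟨?_, faithful_of_base _ hB⟩
  apply baseSize_eq
  · refine ⟨_, ?_, hB⟩
    refine Finset.card_image_le.trans ?_
    simp
  · intro B hb
    have hsub : Finset.range k ⊆ B.image (idx1 N M) := by
      intro i0 hi0
      rw [Finset.mem_range] at hi0
      by_contra hno
      obtain ⟨j, hj⟩ := R.surj (fun i => if (i : ℕ) = i0 then 1 else 0)
      have : (r j : DihedralGroup n) = 1 := by
        apply hb
        intro z hz
        have hz' : idx1 N M z ≠ i0 := fun h => hno (Finset.mem_image.mpr ⟨z, hz, h⟩)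
        have e := F_r R j z
        rcases z with ⟨i, x⟩ | ⟨i, x⟩ | ⟨i, x, δ⟩ | ⟨δ⟩
        · have h0 : R.κ i j = 0 := by rw [hj]; exact if_neg hz'
          refine e.trans ?_
          simp [h0]
        · have h0 : R.κ i j = 0 := by rw [hj]; exact if_neg hz'
          refine e.trans ?_
          simp [h0]
        · have h0 : R.κ i j = 0 := by rw [hj]; exact if_neg hz'
          refine e.trans ?_
          simp [h0]
        · exact e
      rw [one_def] at this
      have hj0 : j = 0 := DihedralGroup.r.inj this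
      have h5 := hj ⟨i0, hi0⟩
      rw [hj0, map_zero] at h5
      simp only [if_true] at h5
      haveI : Fact (1 < N ⟨i0, hi0⟩) := ⟨hN _⟩
      exact one_ne_zero h5.symm
    have := Finset.card_le_card hsub
    rw [Finset.card_range] at this
    exact this.trans Finset.card_image_le

theorem base_F2 (R : Red n N M) (hk : 0 < k)
    (hker : ∀ i, ∃ c : ZMod (N i), c ≠ 0 ∧ R.μ i c = 0) :
    @baseSize (DihedralGroup n) (VF N M) _ (fAct R) = k + 1 ∧
    @FaithfulSMul (DihedralGroup n) (VF N M) (fAct R).toSMul := by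
  classical
  let act := fAct R
  have hB : IsBase (DihedralGroup n) (insert (VF.s true)
      ((Finset.univ : Finset (Fin k)).image (fun i => (VF.a i 0 : VF N M)))) := by
    intro g hg
    have h0 : (VF.s (xor true (isR g)) : VF N M) = VF.s true := hg (.s true)
      (Finset.mem_insert_self _ _)
    have h1 : ∀ i : Fin k, (VF.a i (dA (R.κ i) 0 g 0) : VF N M) =
        VF.a i 0 := fun i => hg (.a i 0)
          (Finset.mem_insert_of_mem (Finset.mem_image_of_mem _ (Finset.mem_univ i)))
    apply F_notR R
    · injection h0 with h3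
      revert h3
      cases isR g <;> simp
    · intro j hj i
      have := h1 i
      injection this with _ h2
      subst hj
      have h2' : 0 + R.κ i j = 0 := h2
      rw [zero_add] at h2'
      exact h2'
  refine ⟨?_, faithful_of_base _ hB⟩
  apply baseSize_eq
  · refine ⟨_, ?_, hB⟩
    refine (Finset.card_insert_le _ _).trans ?_
    have := Finset.card_image_le (s := (Finset.univ : Finset (Fin k)))
      (f := fun i => (VF.a i 0 : VF N M))
    simp only [Finset.card_univ, Fintype.card_fin] at this
    omega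
  · intro B hb
    have hsub : Finset.range k ⊆ B.image (idx2 N M) := by
      intro i0 hi0
      rw [Finset.mem_range] at hi0
      by_contra hno
      obtain ⟨c, hc0, hc⟩ := hker ⟨i0, hi0⟩
      obtain ⟨j, hj⟩ := R.surj (Function.update (fun _ => 0) ⟨i0, hi0⟩ c)
      have hne : ∀ i : Fin k, (i : ℕ) ≠ i0 → R.κ i j = 0 := by
        intro i hi
        rw [hj, Function.update_of_ne]
        intro h
        exact hi (by rw [h])
      have hμ : ∀ i : Fin k, R.μ i (R.κ i j) = 0 := by
        intro i
        by_cases hi : (i : ℕ) = i0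
        · have : i = ⟨i0, hi0⟩ := Fin.ext hi
          subst this
          rw [hj, Function.update_self, hc]
        · rw [hne i hi, map_zero]
      have : (r j : DihedralGroup n) = 1 := by
        apply hb
        intro z hz
        have hz' : idx2 N M z ≠ i0 := fun h => hno (Finset.mem_image.mpr ⟨z, hz, h⟩)
        have e := F_r R j z
        rcases z with ⟨i, x⟩ | ⟨i, x⟩ | ⟨i, x, δ⟩ | ⟨δ⟩
        · have h0 := hne i hz'
          refine e.trans ?_
          simp [h0]
        · have h0 := hne i hz'
          refine e.trans ?_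
          simp [h0]
        · have h0 := hμ i
          refine e.trans ?_
          simp [h0]
        · exact e
      rw [one_def] at this
      have hj0 : j = 0 := DihedralGroup.r.inj this
      have h5 := hj ⟨i0, hi0⟩
      rw [hj0, map_zero, Function.update_self] at h5
      exact hc0 h5.symm
    have h1 := Finset.card_le_card hsub
    rw [Finset.card_range] at h1
    have h2 : (B.image (idx2 N M)).card ≤ B.card := Finset.card_image_le
    by_contra hlt
    have h3 : (B.image (idx2 N M)).card = B.card := by omega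
    have hinj : Set.InjOn (idx2 N M) B := Finset.card_image_iff.mp h3
    have heq : Finset.range k = B.image (idx2 N M) := by
      apply Finset.eq_of_subset_of_card_le hsub
      rw [Finset.card_range]; omega
    have hlt' : ∀ z ∈ B, idx2 N M z < k := by
      intro z hz
      rw [← Finset.mem_range, heq]
      exact Finset.mem_image_of_mem _ hz
    have hex : ∀ i : Fin k, ∃ c : ZMod (N i), ∀ x, ((VF.a i x : VF N M) ∈ B → 0 - x - c = x) ∧
        ((VF.b i x : VF N M) ∈ B → 1 - x - c = x) := by
      intro i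
      have : (i : ℕ) ∈ B.image (idx2 N M) := hsub (Finset.mem_range.mpr i.2)
      obtain ⟨z, hz, hzi⟩ := Finset.mem_image.mp this
      rcases z with ⟨i', x⟩ | ⟨i', x⟩ | ⟨i', x, δ⟩ | ⟨δ⟩
      · have : i' = i := Fin.ext hzi
        subst this
        refine ⟨-2 * x, fun x' => ⟨fun h => ?_, fun h => ?_⟩⟩
        · have := hinj (Finset.mem_coe.mpr h) (Finset.mem_coe.mpr hz) rfl
          injection this with _ h7
          rw [h7]; ring
        · have := hinj (Finset.mem_coe.mpr h) (Finset.mem_coe.mpr hz) rfl
          cases this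
      · have : i' = i := Fin.ext hzi
        subst this
        refine ⟨1 - 2 * x, fun x' => ⟨fun h => ?_, fun h => ?_⟩⟩
        · have := hinj (Finset.mem_coe.mpr h) (Finset.mem_coe.mpr hz) rfl
          cases this
        · have := hinj (Finset.mem_coe.mpr h) (Finset.mem_coe.mpr hz) rfl
          injection this with _ h7
          rw [h7]; ring
      · have h8 : k = (i : ℕ) := hzi
        have := i.2
        omega
      · have h8 : k = (i : ℕ) := hzi
        have := i.2
        omega
    choose c hc using hex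
    obtain ⟨j, hj⟩ := R.surj c
    have : (sr j : DihedralGroup n) = 1 := by
      apply hb
      intro z hz
      have hz' := hlt' z hz
      rcases z with ⟨i, x⟩ | ⟨i, x⟩ | ⟨i, x, δ⟩ | ⟨δ⟩
      · refine congrArg (VF.a i) ?_
        show 0 - x - R.κ i j = x
        rw [hj]; exact (hc i x).1 hz
      · refine congrArg (VF.b i) ?_
        show 1 - x - R.κ i j = x
        rw [hj]; exact (hc i x).2 hz
      · exact absurd hz' (lt_irrefl k)
      · exact absurd hz' (lt_irrefl k)
    rw [one_def] at this
    cases this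

end A6

section A7
variable {k : ℕ} {N M : Fin k → ℕ}

/-- reduction data from the Chinese remainder theorem -/
noncomputable def mkRed (N M : Fin k → ℕ) (hco : Pairwise (Function.onFun Nat.Coprime N))
    (μ : ∀ i, ZMod (N i) →+ ZMod (M i)) (μ1 : ∀ i, μ i 1 = 1)
    (msurj : ∀ i, Function.Surjective (μ i)) : Red (∏ i, N i) N M where
  κ i := (Pi.evalAddMonoidHom _ i).comp (ZMod.prodEquivPi N hco).toAddEquiv.toAddMonoidHom
  μ := μ
  μ1 := μ1
  inj := by
    intro j hj
    have : (ZMod.prodEquivPi N hco) j = 0 := by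
      funext i
      exact hj i
    exact (ZMod.prodEquivPi N hco).map_eq_zero_iff.mp this
  surj := by
    intro c
    refine ⟨(ZMod.prodEquivPi N hco).symm c, fun i => ?_⟩
    show (ZMod.prodEquivPi N hco) ((ZMod.prodEquivPi N hco).symm c) i = c i
    rw [RingEquiv.apply_symm_apply]
  msurj := msurj

theorem col_surj (j : ℕ) (hj : j ≤ 3 * k) : ∃ v : VF N M, fCol N M v = j := by
  rcases Nat.lt_or_ge j (3 * k) with h | h
  · have hi : j / 3 < k := by omega
    have h3 : j % 3 = 0 ∨ j % 3 = 1 ∨ j % 3 = 2 := by omega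
    rcases h3 with h3 | h3 | h3
    · exact ⟨.a ⟨j / 3, hi⟩ 0, by simp only [fCol]; omega⟩
    · exact ⟨.b ⟨j / 3, hi⟩ 0, by simp only [fCol]; omega⟩
    · exact ⟨.y ⟨j / 3, hi⟩ 0 true, by simp only [fCol]; omega⟩
  · exact ⟨.s true, by simp only [fCol]; omega⟩

theorem col_le (v : VF N M) : fCol N M v ≤ 3 * k := by
  rcases v with ⟨i, x⟩ | ⟨i, x⟩ | ⟨i, x, δ⟩ | ⟨δ⟩ <;> simp only [fCol]
  · have := i.2; omega
  · have := i.2; omega
  · have := i.2; omega
  · exact le_rfl

theorem T1 (hco : Pairwise (Function.onFun Nat.Coprime N)) (hN : ∀ i, 2 ≤ N i) (hk : 0 < k) :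
    k ∈ determiningSet (DihedralGroup (∏ i, N i)) := by
  haveI : ∀ i, NeZero (N i) := fun i => ⟨by have := hN i; omega⟩
  let R := mkRed N N hco (fun i => AddMonoidHom.id _) (fun i => rfl) (fun i => Function.surjective_id)
  let act := fAct R
  obtain ⟨hb, hf⟩ := base_F1 R hN hk (fun i x h => h)
  have h := gadget_mem (fGraph R) (fCol N N) (3 * k) (realizes_F R hN hN hk) col_surj col_le
    (.s true) (.s false) (by intro h; cases h) rfl rfl
  generalize baseSize (DihedralGroup (∏ i, N i)) (VF N N) = b at h hb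
  subst hb
  exact h

theorem T2 (hco : Pairwise (Function.onFun Nat.Coprime N)) (hk : 0 < k)
    (hM : ∀ i, 2 ≤ M i) (hMN : ∀ i, M i < N i) (hd : ∀ i, M i ∣ N i) :
    k + 1 ∈ determiningSet (DihedralGroup (∏ i, N i)) := by
  have hN : ∀ i, 2 ≤ N i := fun i => (hM i).trans (hMN i).le
  haveI : ∀ i, NeZero (N i) := fun i => ⟨by have := hN i; omega⟩
  haveI : ∀ i, NeZero (M i) := fun i => ⟨by have := hM i; omega⟩
  let R := mkRed N M hco (fun i => (ZMod.castHom (hd i) (ZMod (M i))).toAddMonoidHom)
    (fun i => map_one (ZMod.castHom (hd i) (ZMod (M i))))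
    (fun i => ZMod.castHom_surjective (hd i))
  let act := fAct R
  obtain ⟨hb, hf⟩ := base_F2 R hk (by
    intro i
    refine ⟨(M i : ZMod (N i)), ?_, ?_⟩
    · intro h
      rw [ZMod.natCast_eq_zero_iff] at h
      exact absurd (Nat.le_of_dvd (by have := hM i; omega) h) (by have := hMN i; omega)
    · show (ZMod.castHom (hd i) (ZMod (M i))) (M i : ZMod (N i)) = 0
      rw [map_natCast]; exact ZMod.natCast_self _)
  rw [← hb]
  exact gadget_mem (fGraph R) (fCol N M) (3 * k) (realizes_F R hN hM hk) col_surj col_le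
    (.s true) (.s false) (by intro h; cases h) rfl rfl

theorem T3 (hco : Pairwise (Function.onFun Nat.Coprime N)) (hN : ∀ i, 2 ≤ N i) (hk : 0 < k) :
    k + 1 ∈ baseSizeSet (DihedralGroup (∏ i, N i)) := by
  haveI : ∀ i, NeZero (N i) := fun i => ⟨by have := hN i; omega⟩
  let M : Fin k → ℕ := fun _ => 1
  haveI : ∀ i, NeZero (M i) := fun i => ⟨one_ne_zero⟩
  have hs : ∀ i, Subsingleton (ZMod (M i)) := fun i => inferInstanceAs (Subsingleton (ZMod 1))
  let R := mkRed N M hco (fun i => 0) (fun i => (hs i).elim _ _)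
    (fun i x => ⟨0, (hs i).elim _ _⟩)
  let act := fAct R
  obtain ⟨hb, hf⟩ := base_F2 R hk (by
    intro i
    haveI : Fact (1 < N i) := ⟨hN i⟩
    exact ⟨1, one_ne_zero, (hs i).elim _ _⟩)
  exact ⟨VF N M, inferInstance, act, hf, hb.symm⟩

theorem H_col (n : ℕ) : (∀ j ≤ 1, ∃ v : VH n, cH n v = j) ∧ ∀ v : VH n, cH n v ≤ 1 := by
  refine ⟨fun j hj => ?_, ?_⟩
  · rcases Nat.lt_or_ge j 1 with h | h
    · exact ⟨.a 0, by show 0 = j; omega⟩
    · exact ⟨.b 0, by show 1 = j; omega⟩
  · rintro (x | x)
    · exact Nat.zero_le _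
    · exact le_rfl

theorem T4 {n : ℕ} (hn : 2 ≤ n) : 2 ∈ determiningSet (DihedralGroup n) := by
  haveI : NeZero n := ⟨by omega⟩
  obtain ⟨hb, hf⟩ := VH_base hn
  rw [← hb]
  haveI : Fact (1 < n) := ⟨hn⟩
  exact gadget_mem (ΓH n) (cH n) 1 (realizes_H hn) (H_col n).1 (H_col n).2
    (.b 0) (.b 1) (by
      intro h
      have := VH.b.inj h
      exact zero_ne_one this) rfl rfl

theorem crt2 {n' : ℕ} (hn : Odd n') : ∃ (κ' : ZMod (2 * n') →+ ZMod n')
    (κ₂ : ZMod (2 * n') →+ ZMod 2), (∀ i, κ' i = 0 → κ₂ i = 0 → i = 0) ∧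
    (∀ a b, ∃ i, κ' i = a ∧ κ₂ i = b) := by
  have hco : Nat.Coprime 2 n' := Nat.coprime_two_left.mpr hn
  let e := ZMod.chineseRemainder hco
  refine ⟨(AddMonoidHom.snd _ _).comp e.toAddEquiv.toAddMonoidHom,
    (AddMonoidHom.fst _ _).comp e.toAddEquiv.toAddMonoidHom, ?_, ?_⟩
  · intro i h1 h2
    have : e i = 0 := Prod.ext h2 h1
    exact e.map_eq_zero_iff.mp this
  · intro a b
    refine ⟨e.symm (b, a), ?_, ?_⟩
    · show (e (e.symm (b, a))).2 = a
      rw [RingEquiv.apply_symm_apply]
    · show (e (e.symm (b, a))).1 = b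
      rw [RingEquiv.apply_symm_apply]

theorem T5 {n' : ℕ} (hn : Odd n') (hn' : 2 ≤ n') : 3 ∈ determiningSet (DihedralGroup (2 * n')) := by
  haveI : NeZero n' := ⟨by omega⟩
  obtain ⟨κ', κ₂, h1, h2⟩ := crt2 hn
  obtain ⟨hb, hf⟩ := VH_base hn'
  have := addT κ' κ₂ h1 h2 (ΓH n') (cH n') 1 (realizes_H hn') (H_col n').1 (H_col n').2
  rw [hb] at this
  exact this

theorem T6 (hco : Pairwise (Function.onFun Nat.Coprime N)) (hk : 0 < k)
    (hM : ∀ i, 2 ≤ M i) (hMN : ∀ i, M i < N i) (hd : ∀ i, M i ∣ N i) (hodd : Odd (∏ i, N i)) :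
    k + 2 ∈ determiningSet (DihedralGroup (2 * ∏ i, N i)) := by
  have hN : ∀ i, 2 ≤ N i := fun i => (hM i).trans (hMN i).le
  haveI : ∀ i, NeZero (N i) := fun i => ⟨by have := hN i; omega⟩
  haveI : ∀ i, NeZero (M i) := fun i => ⟨by have := hM i; omega⟩
  let R := mkRed N M hco (fun i => (ZMod.castHom (hd i) (ZMod (M i))).toAddMonoidHom)
    (fun i => map_one (ZMod.castHom (hd i) (ZMod (M i))))
    (fun i => ZMod.castHom_surjective (hd i))
  let act := fAct R
  obtain ⟨hb, hf⟩ := base_F2 R hk (by
    intro i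
    refine ⟨(M i : ZMod (N i)), ?_, ?_⟩
    · intro h
      rw [ZMod.natCast_eq_zero_iff] at h
      exact absurd (Nat.le_of_dvd (by have := hM i; omega) h) (by have := hMN i; omega)
    · show (ZMod.castHom (hd i) (ZMod (M i))) (M i : ZMod (N i)) = 0
      rw [map_natCast]; exact ZMod.natCast_self _)
  obtain ⟨κ', κ₂, h1, h2⟩ := crt2 hodd
  have := addT κ' κ₂ h1 h2 (fGraph R) (fCol N M) (3 * k) (realizes_F R hN hM hk) col_surj col_le
  rw [hb] at this
  exact this

end A7

section A8
/-- a nonzero rotation generates a rotation of prime order -/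
theorem exists_prime_mul {n : ℕ} (hn : 0 < n) (i : ZMod n) (hi : i ≠ 0) :
    ∃ p : ℕ, p.Prime ∧ p ∣ n ∧ ∃ t : ZMod n, ((n / p : ℕ) : ZMod n) = t * i := by
  haveI : NeZero n := ⟨by omega⟩
  set a := i.val with ha
  have hia : (a : ZMod n) = i := ZMod.natCast_zmod_val i
  have ha0 : a ≠ 0 := by
    intro h
    apply hi
    rw [← hia, h, Nat.cast_zero]
  have han : a < n := ZMod.val_lt i
  set d := Nat.gcd a n with hd
  have hdn : d ∣ n := Nat.gcd_dvd_right a n
  have hda : d ∣ a := Nat.gcd_dvd_left a n
  have hdle : d ≤ a := Nat.le_of_dvd (by omega) hda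
  have hd0 : 0 < d := Nat.gcd_pos_of_pos_right _ hn
  obtain ⟨e, he⟩ := hdn
  have he1 : e ≠ 1 := by
    intro h
    rw [h, mul_one] at he
    omega
  obtain ⟨p, hp, hpe⟩ := Nat.exists_prime_and_dvd he1
  obtain ⟨f, hf⟩ := hpe
  have hnp : n / p = d * f := by
    rw [he, hf]
    have : d * (p * f) = (d * f) * p := by ring
    rw [this, Nat.mul_div_cancel _ hp.pos]
  refine ⟨p, hp, ⟨d * f, by rw [he, hf]; ring⟩, ?_⟩
  have hbez : (d : ℤ) = a * Nat.gcdA a n + n * Nat.gcdB a n := Nat.gcd_eq_gcd_ab a n
  have hbez' : (d : ZMod n) = a * ((Nat.gcdA a n : ℤ) : ZMod n) := by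
    have := congrArg (fun z : ℤ => (z : ZMod n)) hbez
    push_cast at this
    rw [ZMod.natCast_self, zero_mul, add_zero] at this
    exact this
  refine ⟨(f : ZMod n) * ((Nat.gcdA a n : ℤ) : ZMod n), ?_⟩
  rw [hnp, ← hia]
  push_cast
  rw [hbez']
  ring

theorem rot_mul_fix {n : ℕ} {S : Type*} [MulAction (DihedralGroup n) S] [NeZero n] (i : ZMod n)
    (v : S) (h : r i • v = v) (t : ZMod n) : r (t * i) • v = v := by
  have key : ∀ m : ℕ, r ((m : ZMod n) * i) • v = v := by
    intro m
    induction m with
    | zero => simp [← one_def]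
    | succ m ih =>
      have : ((m + 1 : ℕ) : ZMod n) * i = (m : ZMod n) * i + i := by push_cast; ring
      rw [this, ← r_mul_r, mul_smul, h, ih]
  have := key t.val
  rwa [ZMod.natCast_zmod_val] at this

theorem rot_trivial {n : ℕ} (hn : 0 < n) {S : Type*} [MulAction (DihedralGroup n) S]
    (B : Finset S)
    (hB : ∀ p : ℕ, p.Prime → p ∣ n → ∃ v ∈ B, r ((n / p : ℕ) : ZMod n) • v ≠ v) (i : ZMod n)
    (hi : ∀ v ∈ B, r i • v = v) : i = 0 := by
  haveI : NeZero n := ⟨by omega⟩
  by_contra h0
  obtain ⟨p, hp, hpn, t, ht⟩ := exists_prime_mul hn i h0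
  obtain ⟨v, hv, hne⟩ := hB p hp hpn
  apply hne
  rw [ht]
  exact rot_mul_fix i v (hi v hv) t

theorem extend_base {n : ℕ} (hn : 0 < n) {S : Type*} [Fintype S] [DecidableEq S]
    [MulAction (DihedralGroup n) S]
    [FaithfulSMul (DihedralGroup n) S] (B : Finset S)
    (hB : ∀ p : ℕ, p.Prime → p ∣ n → ∃ v ∈ B, r ((n / p : ℕ) : ZMod n) • v ≠ v) :
    baseSize (DihedralGroup n) S ≤ B.card + 1 := by
  by_cases hb : IsBase (DihedralGroup n) B
  · exact (baseSize_le B hb).trans (Nat.le_succ _)
  · unfold IsBase at hb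
    push Not at hb
    obtain ⟨g, hg, hg1⟩ := hb
    rcases g with j | j
    · exfalso
      apply hg1
      rw [rot_trivial hn B hB j hg, one_def]
    · obtain ⟨u, hu⟩ : ∃ u : S, sr j • u ≠ u := by
        by_contra hno
        push Not at hno
        apply hg1
        apply FaithfulSMul.eq_of_smul_eq_smul (α := S)
        intro a
        rw [hno a, one_smul]
      have : IsBase (DihedralGroup n) (insert u B) := by
        intro h hh
        rcases h with j' | j'
        · rw [rot_trivial hn B hB j' (fun v hv => hh v (Finset.mem_insert_of_mem hv)), one_def]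
        · exfalso
          have h1 : j' - j = 0 := by
            apply rot_trivial hn B hB
            intro v hv
            rw [← sr_mul_sr, mul_smul, hh v (Finset.mem_insert_of_mem hv), hg v hv]
          have h2 : j' = j := sub_eq_zero.mp h1
          rw [h2] at hh
          exact hu (hh u (Finset.mem_insert_self _ _))
      exact (baseSize_le _ this).trans (Finset.card_insert_le _ _)

theorem cast_ne {n p : ℕ} (hn : 0 < n) (hp : p.Prime) (hpn : p ∣ n) :
    ((n / p : ℕ) : ZMod n) ≠ 0 := by
  intro h
  rw [ZMod.natCast_eq_zero_iff] at h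
  have h1 : 0 < n / p := Nat.div_pos (Nat.le_of_dvd hn hpn) hp.pos
  have h2 : n / p < n := Nat.div_lt_self hn hp.one_lt
  exact absurd (Nat.le_of_dvd h1 h) (by omega)

theorem exists_moved {n : ℕ} (hn : 0 < n) {S : Type*} [MulAction (DihedralGroup n) S]
    [FaithfulSMul (DihedralGroup n) S] {p : ℕ} (hp : p.Prime) (hpn : p ∣ n) :
    ∃ v : S, r ((n / p : ℕ) : ZMod n) • v ≠ v := by
  by_contra hno
  push Not at hno
  apply cast_ne hn hp hpn
  have : (r ((n / p : ℕ) : ZMod n) : DihedralGroup n) = 1 := by
    apply FaithfulSMul.eq_of_smul_eq_smul (α := S)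
    intro a
    rw [hno a, one_smul]
  rw [one_def] at this
  exact DihedralGroup.r.inj this

theorem U1 {n : ℕ} (hn : 2 ≤ n) {S : Type*} [Fintype S] [MulAction (DihedralGroup n) S]
    [FaithfulSMul (DihedralGroup n) S] :
    1 ≤ baseSize (DihedralGroup n) S ∧ baseSize (DihedralGroup n) S ≤ n.primeFactors.card + 1 := by
  classical
  constructor
  · by_contra h
    obtain ⟨B, hB, hb⟩ := exists_base_baseSize (G := DihedralGroup n) (S := S)
    have hB0 : B = ∅ := by rw [← Finset.card_eq_zero]; omega
    rw [hB0] at hb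
    have := hb (r 1) (by simp)
    rw [one_def] at this
    have h1 := DihedralGroup.r.inj this
    haveI : Fact (1 < n) := ⟨hn⟩
    exact one_ne_zero h1
  · have hex : ∀ p : ℕ, ∃ v : S, p.Prime → p ∣ n → r ((n / p : ℕ) : ZMod n) • v ≠ v := by
      intro p
      by_cases h : p.Prime ∧ p ∣ n
      · obtain ⟨v, hv⟩ := exists_moved (S := S) (by omega) h.1 h.2
        exact ⟨v, fun _ _ => hv⟩
      · have : Nonempty S := by
          obtain ⟨p, hp, hpn⟩ := Nat.exists_prime_and_dvd (by omega : n ≠ 1)
          exact ⟨(exists_moved (S := S) (by omega) hp hpn).choose⟩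
        exact ⟨Classical.arbitrary S, fun h1 h2 => absurd ⟨h1, h2⟩ h⟩
    choose v hv using hex
    refine (extend_base (by omega) (n.primeFactors.image v) ?_).trans ?_
    · intro p hp hpn
      exact ⟨v p, Finset.mem_image_of_mem _ (Nat.mem_primeFactors.mpr ⟨hp, hpn, by omega⟩),
        hv p hp hpn⟩
    · have := Finset.card_image_le (s := n.primeFactors) (f := v)
      omega

end A8

section A9
theorem U2 {n : ℕ} (hn : 2 ≤ n) {V : Type} [Fintype V] [MulAction (DihedralGroup n) V]
    [FaithfulSMul (DihedralGroup n) V] (Γ : SimpleGraph V)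
    (hΓ : ∀ σ : Equiv.Perm V, (∀ u v, Γ.Adj (σ u) (σ v) ↔ Γ.Adj u v) ↔
      ∃ g : DihedralGroup n, ∀ v, σ v = g • v)
    {q : ℕ} (hq : q.Prime) (hqn : q ∣ n) (hq2 : ¬ q ^ 2 ∣ n) (hqo : q ≠ 2) (hn1 : n ≠ q)
    (hn2 : n ≠ 2 * q) :
    baseSize (DihedralGroup n) V ≤ n.primeFactors.card := by
  classical
  by_contra hbig
  push Not at hbig
  have hn0 : 0 < n := by omega
  haveI : NeZero n := ⟨by omega⟩
  haveI : Nonempty V := ⟨(exists_moved (S := V) hn0 hq hqn).choose⟩
  have hadj : ∀ (g : DihedralGroup n) u v, Γ.Adj (g • u) (g • v) ↔ Γ.Adj u v := by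
    intro g
    exact (hΓ (MulAction.toPerm g)).mpr ⟨g, fun v => rfl⟩
  -- no vertex serves two primes
  have hex : ∀ p : ℕ, ∃ v : V, p.Prime → p ∣ n → r ((n / p : ℕ) : ZMod n) • v ≠ v := by
    intro p
    by_cases h : p.Prime ∧ p ∣ n
    · obtain ⟨v, hv⟩ := exists_moved (S := V) hn0 h.1 h.2
      exact ⟨v, fun _ _ => hv⟩
    · exact ⟨Classical.arbitrary V, fun h1 h2 => absurd ⟨h1, h2⟩ h⟩
  choose vp hvp using hex
  have hβ : ∀ p p' : ℕ, p.Prime → p ∣ n → p'.Prime → p' ∣ n → p ≠ p' → ∀ v : V,
      r ((n / p : ℕ) : ZMod n) • v ≠ v → r ((n / p' : ℕ) : ZMod n) • v = v := by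
    intro p p' hp hpn hp' hpn' hne v hv
    by_contra hv'
    have h1 := extend_base hn0 (insert v (((n.primeFactors.erase p).erase p').image vp)) (by
      intro l hl hln
      by_cases hlp : l = p
      · subst hlp; exact ⟨v, Finset.mem_insert_self _ _, hv⟩
      · by_cases hlp' : l = p'
        · subst hlp'; exact ⟨v, Finset.mem_insert_self _ _, hv'⟩
        · refine ⟨vp l, Finset.mem_insert_of_mem (Finset.mem_image_of_mem _ ?_), hvp l hl hln⟩
          exact Finset.mem_erase.mpr ⟨hlp', Finset.mem_erase.mpr ⟨hlp,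
            Nat.mem_primeFactors.mpr ⟨hl, hln, by omega⟩⟩⟩)
    have h2 := Finset.card_insert_le v (((n.primeFactors.erase p).erase p').image vp)
    have h3 : (((n.primeFactors.erase p).erase p').image vp).card ≤
      ((n.primeFactors.erase p).erase p').card := Finset.card_image_le
    have h4 : p ∈ n.primeFactors := Nat.mem_primeFactors.mpr ⟨hp, hpn, by omega⟩
    have h5 : p' ∈ n.primeFactors.erase p := Finset.mem_erase.mpr ⟨hne.symm,
      Nat.mem_primeFactors.mpr ⟨hp', hpn', by omega⟩⟩
    rw [Finset.card_erase_of_mem h5, Finset.card_erase_of_mem h4] at h3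
    have h6 : 0 < (n.primeFactors.erase p).card := Finset.card_pos.mpr ⟨_, h5⟩
    rw [Finset.card_erase_of_mem h4] at h6
    omega
  -- every vertex moved by the rotation of order q is fixed by a reflection fixing the others
  have hα : ∀ v : V, r ((n / q : ℕ) : ZMod n) • v ≠ v → ∃ j : ZMod n, sr j • v = v ∧
      ∀ p : ℕ, p.Prime → p ∣ n → p ≠ q → sr j • vp p = vp p := by
    intro v hv
    have hB : ∀ p : ℕ, p.Prime → p ∣ n →
        ∃ w ∈ insert v ((n.primeFactors.erase q).image vp), r ((n / p : ℕ) : ZMod n) • w ≠ w := by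
      intro p hp hpn
      by_cases hpq : p = q
      · subst hpq; exact ⟨v, Finset.mem_insert_self _ _, hv⟩
      · exact ⟨vp p, Finset.mem_insert_of_mem (Finset.mem_image_of_mem _
          (Finset.mem_erase.mpr ⟨hpq, Nat.mem_primeFactors.mpr ⟨hp, hpn, by omega⟩⟩)),
          hvp p hp hpn⟩
    have hcard : (insert v ((n.primeFactors.erase q).image vp)).card ≤ n.primeFactors.card := by
      have h2 := Finset.card_insert_le v ((n.primeFactors.erase q).image vp)
      have h3 : ((n.primeFactors.erase q).image vp).card ≤ (n.primeFactors.erase q).card :=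
        Finset.card_image_le
      have h4 : q ∈ n.primeFactors := Nat.mem_primeFactors.mpr ⟨hq, hqn, by omega⟩
      rw [Finset.card_erase_of_mem h4] at h3
      have : 0 < n.primeFactors.card := Finset.card_pos.mpr ⟨_, h4⟩
      omega
    have hnb : ¬ IsBase (DihedralGroup n) (insert v ((n.primeFactors.erase q).image vp)) := by
      intro hb
      have := baseSize_le _ hb
      omega
    unfold IsBase at hnb
    push Not at hnb
    obtain ⟨g, hg, hg1⟩ := hnb
    rcases g with j | j
    · exfalso
      apply hg1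
      rw [rot_trivial hn0 _ hB j hg, one_def]
    · refine ⟨j, hg v (Finset.mem_insert_self _ _), fun p hp hpn hpq => ?_⟩
      exact hg _ (Finset.mem_insert_of_mem (Finset.mem_image_of_mem _
          (Finset.mem_erase.mpr ⟨hpq, Nat.mem_primeFactors.mpr ⟨hp, hpn, by omega⟩⟩)))
  -- claim 1
  have hc1 : ∀ i : ZMod n, (∀ p : ℕ, p.Prime → p ∣ n → p ≠ q → r i • vp p = vp p) →
      (q : ZMod n) * i = 0 := by
    intro i hi
    by_contra h0
    obtain ⟨p, hp, hpn, t, ht⟩ := exists_prime_mul hn0 _ h0
    by_cases hpq : p = q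
    · subst hpq
      apply hq2
      have h1 := congrArg (ZMod.castHom hpn (ZMod p)) ht
      rw [map_mul, map_mul, map_natCast, map_natCast, ZMod.natCast_self, zero_mul, mul_zero,
        ZMod.natCast_eq_zero_iff] at h1
      obtain ⟨c, hc⟩ := h1
      refine ⟨c, ?_⟩
      have := Nat.div_mul_cancel hpn
      rw [← this, hc]; ring
    · apply hvp p hp hpn
      rw [ht, ← mul_assoc]
      exact rot_mul_fix i _ (hi p hp hpn hpq) _
  -- claim 2
  have hc2 : ∀ i : ZMod n, (q : ZMod n) * i = 0 → ∃ t : ZMod n, i = t * ((n / q : ℕ) : ZMod n) := by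
    intro i hi
    have hi' : ((q * i.val : ℕ) : ZMod n) = 0 := by
      push_cast
      rw [ZMod.natCast_zmod_val]; exact hi
    rw [ZMod.natCast_eq_zero_iff] at hi'
    have h1 : n / q ∣ i.val := by
      have h2 : q * (n / q) ∣ q * i.val := by rwa [Nat.mul_div_cancel' hqn]
      exact Nat.dvd_of_mul_dvd_mul_left hq.pos h2
    obtain ⟨c, hc⟩ := h1
    refine ⟨(c : ZMod n), ?_⟩
    rw [← ZMod.natCast_zmod_val i, hc]
    push_cast; ring
  obtain ⟨v0, hv0⟩ := exists_moved (S := V) hn0 hq hqn
  obtain ⟨j0, hj0, hj0'⟩ := hα v0 hv0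
  have hinv : ∀ (j : ZMod n) (v : V), r ((n / q : ℕ) : ZMod n) • v ≠ v →
      r ((n / q : ℕ) : ZMod n) • (sr j • v : V) ≠ sr j • v := by
    intro j v hv h
    apply hv
    have e1 : r ((n / q : ℕ) : ZMod n) * sr j = sr j * r (-((n / q : ℕ) : ZMod n)) := by
      rw [r_mul_sr, sr_mul_r]; congr 1; ring
    rw [← mul_smul, e1, mul_smul] at h
    have h2 : r (-((n / q : ℕ) : ZMod n)) • v = v := MulAction.injective (sr j) h
    have := rot_mul_fix _ v h2 (-1)
    rwa [neg_one_mul, neg_neg] at this
  have hs2 : ∀ (j : ZMod n) (v : V), sr j • (sr j • v : V) = v := by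
    intro j v
    rw [← mul_smul, sr_mul_sr, sub_self, ← one_def, one_smul]
  -- the partial reflection
  let σf : V → V := fun v => if r ((n / q : ℕ) : ZMod n) • v ≠ v then sr j0 • v else v
  have hσ1 : ∀ v, r ((n / q : ℕ) : ZMod n) • v ≠ v → σf v = sr j0 • v := fun v hv => if_pos hv
  have hσ2 : ∀ v, r ((n / q : ℕ) : ZMod n) • v = v → σf v = v := fun v hv => if_neg (by simpa using hv)
  have hσσ : Function.Involutive σf := by
    intro v
    by_cases hv : r ((n / q : ℕ) : ZMod n) • v = v
    · rw [hσ2 v hv, hσ2 v hv]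
    · rw [hσ1 v hv, hσ1 _ (hinv j0 v hv), hs2]
  have hrot : ∀ v : V, r ((n / q : ℕ) : ZMod n) • v ≠ v → ∃ i : ZMod n, sr j0 • v = r i • v ∧
      ∀ w : V, r ((n / q : ℕ) : ZMod n) • w = w → r i • w = w := by
    intro v hv
    obtain ⟨j, hj, hj'⟩ := hα v hv
    refine ⟨j - j0, ?_, ?_⟩
    · rw [← sr_mul_sr, mul_smul, hj]
    · obtain ⟨t, ht⟩ := hc2 (j - j0) (hc1 _ (by
        intro p hp hpn hpq
        rw [← sr_mul_sr, mul_smul, hj' p hp hpn hpq, hj0' p hp hpn hpq]))
      intro w hw
      rw [ht]
      exact rot_mul_fix _ w hw t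
  have hσadj1 : ∀ u v, r ((n / q : ℕ) : ZMod n) • u ≠ u → r ((n / q : ℕ) : ZMod n) • v = v →
      (Γ.Adj (sr j0 • u) v ↔ Γ.Adj u v) := by
    intro u v hu hv
    obtain ⟨i, hi1, hi2⟩ := hrot u hu
    rw [hi1]
    have := hadj (r i) u v
    rw [hi2 v hv] at this
    exact this
  have hσadj : ∀ u v, Γ.Adj (σf u) (σf v) ↔ Γ.Adj u v := by
    intro u v
    by_cases hu : r ((n / q : ℕ) : ZMod n) • u = u
    · by_cases hv : r ((n / q : ℕ) : ZMod n) • v = v
      · rw [hσ2 u hu, hσ2 v hv]
      · rw [hσ2 u hu, hσ1 v hv, Γ.adj_comm, hσadj1 v u hv hu, Γ.adj_comm]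
    · by_cases hv : r ((n / q : ℕ) : ZMod n) • v = v
      · rw [hσ1 u hu, hσ2 v hv, hσadj1 u v hu hv]
      · rw [hσ1 u hu, hσ1 v hv, hadj]
  obtain ⟨g, hg⟩ := (hΓ hσσ.toPerm).mp hσadj
  have hg' : ∀ v, σf v = g • v := hg
  rcases g with i | i
  · -- rotation
    have h1 : r i • v0 = v0 := by rw [← hg', hσ1 v0 hv0, hj0]
    have hv1 : r ((n / q : ℕ) : ZMod n) • (r ((n / q : ℕ) : ZMod n) • v0 : V) ≠
        r ((n / q : ℕ) : ZMod n) • v0 := fun h => hv0 (MulAction.injective _ h)
    have h2 := hg' (r ((n / q : ℕ) : ZMod n) • v0)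
    rw [hσ1 _ hv1] at h2
    have e1 : sr j0 * r ((n / q : ℕ) : ZMod n) = r (-((n / q : ℕ) : ZMod n)) * sr j0 := by
      rw [r_mul_sr, sr_mul_r]; congr 1; ring
    have e2 : r i * r ((n / q : ℕ) : ZMod n) = r ((n / q : ℕ) : ZMod n) * r i := by
      rw [r_mul_r, r_mul_r, add_comm]
    rw [← mul_smul, e1, mul_smul, hj0, ← mul_smul, e2, mul_smul, h1] at h2
    have h3 : r (2 * ((n / q : ℕ) : ZMod n)) • v0 = v0 := by
      rw [two_mul, ← r_mul_r, mul_smul, ← h2, ← mul_smul, r_mul_r, add_neg_cancel, ← one_def,
        one_smul]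
    apply hv0
    have hodd : Odd q := hq.odd_of_ne_two hqo
    obtain ⟨c, hc⟩ := hodd
    have h4 := rot_mul_fix _ v0 h3 ((c + 1 : ℕ) : ZMod n)
    have e3 : ((c + 1 : ℕ) : ZMod n) * (2 * ((n / q : ℕ) : ZMod n)) = ((n / q : ℕ) : ZMod n) := by
      have : (((c + 1) * (2 * (n / q)) : ℕ) : ZMod n) = ((n + n / q : ℕ) : ZMod n) := by
        congr 1
        have h5 : q * (n / q) = n := Nat.mul_div_cancel' hqn
        calc (c + 1) * (2 * (n / q)) = (2 * c + 1) * (n / q) + n / q := by ring
          _ = q * (n / q) + n / q := by rw [← hc]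
          _ = n + n / q := by rw [h5]
      push_cast at this
      rw [ZMod.natCast_self, zero_add] at this
      push_cast
      exact this
    rwa [e3] at h4
  · -- reflection
    have h2q : (q : ZMod n) * 2 = 0 := by
      apply hc1
      intro p hp hpn hpq
      have h1 : r ((n / q : ℕ) : ZMod n) • vp p = vp p :=
        hβ p q hp hpn hq hqn hpq (vp p) (hvp p hp hpn)
      have h2 := hg' (vp p)
      rw [hσ2 _ h1] at h2
      have h3 : r ((n / q : ℕ) : ZMod n) • (r (1 : ZMod n) • vp p : V) = r (1 : ZMod n) • vp p := by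
        rw [← mul_smul, r_mul_r, add_comm, ← r_mul_r, mul_smul, h1]
      have h4 := hg' (r (1 : ZMod n) • vp p)
      rw [hσ2 _ h3] at h4
      have e1 : sr i * r (1 : ZMod n) = r (-1 : ZMod n) * sr i := by
        rw [r_mul_sr, sr_mul_r]; congr 1; ring
      rw [← mul_smul, e1, mul_smul, ← h2] at h4
      have e4 : (2 : ZMod n) = 1 + 1 := by norm_num
      rw [e4, ← r_mul_r, mul_smul, h4, ← mul_smul, r_mul_r, add_neg_cancel, ← one_def, one_smul]
    have h6 : ((q * 2 : ℕ) : ZMod n) = 0 := by push_cast; exact h2q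
    rw [ZMod.natCast_eq_zero_iff] at h6
    obtain ⟨m, hm⟩ := hqn
    rw [hm] at h6
    have h7 : m ∣ 2 := Nat.dvd_of_mul_dvd_mul_left hq.pos h6
    have h8 : m ≤ 2 := Nat.le_of_dvd (by norm_num) h7
    have : m = 0 ∨ m = 1 ∨ m = 2 := by omega
    rcases this with rfl | rfl | rfl
    · omega
    · apply hn1; rw [hm, mul_one]
    · apply hn2; rw [hm]; ring

end A9

section A10
theorem parts (n : ℕ) (hn : n ≠ 0) (k : ℕ) (φ : {p // p ∈ n.primeFactors} → Fin k)
    (hφ : Function.Surjective φ) : ∃ N : Fin k → ℕ, Pairwise (Function.onFun Nat.Coprime N) ∧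
      (∀ i, 2 ≤ N i) ∧ ∏ i, N i = n := by
  classical
  refine ⟨fun i => ∏ p ∈ Finset.univ.filter (fun p => φ p = i), (p : ℕ) ^ n.factorization p,
    ?_, ?_, ?_⟩
  · intro i j hij
    apply Nat.Coprime.prod_left
    intro p hp
    apply Nat.Coprime.prod_right
    intro q hq
    rw [Finset.mem_filter] at hp hq
    apply Nat.Coprime.pow
    rw [Nat.coprime_primes (Nat.prime_of_mem_primeFactors p.2) (Nat.prime_of_mem_primeFactors q.2)]
    intro h
    apply hij
    rw [← hp.2, ← hq.2, Subtype.ext h]
  · intro i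
    obtain ⟨p, hp⟩ := hφ i
    have hpp := Nat.prime_of_mem_primeFactors p.2
    have h1 : (p : ℕ) ∣ ∏ p ∈ Finset.univ.filter (fun p => φ p = i),
        (p : ℕ) ^ n.factorization p := by
      refine dvd_trans ?_ (Finset.dvd_prod_of_mem _ (Finset.mem_filter.mpr
        ⟨Finset.mem_univ p, hp⟩))
      apply dvd_pow_self
      have := (hpp.dvd_iff_one_le_factorization hn).mp (Nat.dvd_of_mem_primeFactors p.2)
      omega
    have h2 : 0 < ∏ p ∈ Finset.univ.filter (fun p => φ p = i), (p : ℕ) ^ n.factorization p := by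
      apply Finset.prod_pos
      intro q _
      exact pow_pos (Nat.prime_of_mem_primeFactors q.2).pos _
    exact hpp.two_le.trans (Nat.le_of_dvd h2 h1)
  · rw [Finset.prod_fiberwise]
    rw [Finset.prod_coe_sort n.primeFactors (fun p => p ^ n.factorization p)]
    exact Nat.factorization_prod_pow_eq_self hn

/-- the indexing of the prime divisors -/
noncomputable def pr (n : ℕ) (i : Fin n.primeFactors.card) : ℕ :=
  (n.primeFactors.equivFin.symm i : ℕ)

theorem pr_mem (n : ℕ) (i : Fin n.primeFactors.card) : pr n i ∈ n.primeFactors :=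
  (n.primeFactors.equivFin.symm i).2

theorem pr_prod (n : ℕ) (hn : n ≠ 0) :
    ∏ i : Fin n.primeFactors.card, (pr n i) ^ n.factorization (pr n i) = n := by
  unfold pr
  rw [Equiv.prod_comp n.primeFactors.equivFin.symm
    (fun p : {p // p ∈ n.primeFactors} => (p : ℕ) ^ n.factorization (p : ℕ))]
  rw [Finset.prod_coe_sort n.primeFactors (fun p => p ^ n.factorization p)]
  exact Nat.factorization_prod_pow_eq_self hn

theorem pr_coprime (n : ℕ) : Pairwise (Function.onFun Nat.Coprime
    (fun i : Fin n.primeFactors.card => (pr n i) ^ n.factorization (pr n i))) := by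
  intro i j hij
  apply Nat.Coprime.pow
  rw [Nat.coprime_primes (Nat.prime_of_mem_primeFactors (pr_mem n i))
    (Nat.prime_of_mem_primeFactors (pr_mem n j))]
  intro h
  apply hij
  have : n.primeFactors.equivFin.symm i = n.primeFactors.equivFin.symm j := Subtype.ext h
  exact n.primeFactors.equivFin.symm.injective this

theorem pr_T (n : ℕ) (hn : 2 ≤ n) (h : ∀ p : ℕ, p.Prime → p ∣ n → 2 ≤ n.factorization p) :
    n.primeFactors.card + 1 ∈ determiningSet (DihedralGroup n) ∧
    (Odd n → n.primeFactors.card + 2 ∈ determiningSet (DihedralGroup (2 * n))) := by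
  have hn0 : n ≠ 0 := by omega
  have hk : 0 < n.primeFactors.card := by
    obtain ⟨p, hp, hpn⟩ := Nat.exists_prime_and_dvd (by omega : n ≠ 1)
    exact Finset.card_pos.mpr ⟨p, Nat.mem_primeFactors.mpr ⟨hp, hpn, hn0⟩⟩
  have hM : ∀ i, 2 ≤ pr n i := fun i => (Nat.prime_of_mem_primeFactors (pr_mem n i)).two_le
  have he : ∀ i, 2 ≤ n.factorization (pr n i) := fun i =>
    h _ (Nat.prime_of_mem_primeFactors (pr_mem n i)) (Nat.dvd_of_mem_primeFactors (pr_mem n i))
  have hMN : ∀ i, pr n i < pr n i ^ n.factorization (pr n i) := fun i => by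
    have := hM i
    calc pr n i = pr n i ^ 1 := (pow_one _).symm
      _ < pr n i ^ n.factorization (pr n i) :=
        Nat.pow_lt_pow_right (by omega) (by have := he i; omega)
  have hd : ∀ i, pr n i ∣ pr n i ^ n.factorization (pr n i) := fun i =>
    dvd_pow_self _ (by have := he i; omega)
  constructor
  · have := T2 (pr_coprime n) hk hM hMN hd
    rwa [pr_prod n hn0] at this
  · intro hodd
    have := T6 (pr_coprime n) hk hM hMN hd (by rw [pr_prod n hn0]; exact hodd)
    rwa [pr_prod n hn0] at this

/-- the exceptional condition: `n` is a prime, or twice a prime, or every odd prime divisor of `n`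
divides `n` at least twice -/
def Good (n : ℕ) : Prop :=
  n.Prime ∨ (∃ q : ℕ, q.Prime ∧ n = 2 * q) ∨ ∀ p : ℕ, p.Prime → p ≠ 2 → p ∣ n → p ^ 2 ∣ n

theorem good_mem (n : ℕ) (hn : 2 ≤ n) (hg : Good n) :
    n.primeFactors.card + 1 ∈ determiningSet (DihedralGroup n) := by
  rcases hg with hp | ⟨q, hq, rfl⟩ | h
  · rw [hp.primeFactors, Finset.card_singleton]
    exact T4 hn
  · by_cases hq2 : q = 2
    · subst hq2
      have : (2 * 2).primeFactors.card = 1 := by
        rw [show 2 * 2 = 2 ^ 2 by norm_num, Nat.primeFactors_prime_pow (by norm_num) Nat.prime_two,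
          Finset.card_singleton]
      rw [this]
      exact T4 (by norm_num)
    · have : (2 * q).primeFactors.card = 2 := by
        rw [Nat.primeFactors_mul (by norm_num) hq.ne_zero, Nat.prime_two.primeFactors,
          hq.primeFactors, Finset.card_union_of_disjoint (by
            rw [Finset.disjoint_singleton]; exact fun h => hq2 h.symm),
          Finset.card_singleton, Finset.card_singleton]
      rw [this]
      exact T5 (hq.odd_of_ne_two hq2) hq.two_le
  · have hn0 : n ≠ 0 := by omega
    have hfac : ∀ p : ℕ, p.Prime → p ≠ 2 → p ∣ n → 2 ≤ n.factorization p := fun p hp h2 hpn =>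
      (hp.pow_dvd_iff_le_factorization hn0).mp (h p hp h2 hpn)
    by_cases h1 : n.factorization 2 = 1
    · -- n = 2 n'
      have h2n : 2 ∣ n := by
        apply (Nat.prime_two.dvd_iff_one_le_factorization hn0).mpr
        omega
      obtain ⟨n', rfl⟩ := h2n
      have hn'0 : n' ≠ 0 := by omega
      have hodd : Odd n' := by
        rw [← Nat.not_even_iff_odd]
        intro he
        have : 2 ^ 2 ∣ 2 * n' := by
          obtain ⟨c, hc⟩ := even_iff_two_dvd.mp he
          exact ⟨c, by rw [hc]; ring⟩
        have := (Nat.prime_two.pow_dvd_iff_le_factorization hn0).mp this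
        omega
      by_cases hn1 : n' = 1
      · subst hn1
        have : (2 * 1).primeFactors.card = 1 := by
          rw [mul_one, Nat.prime_two.primeFactors, Finset.card_singleton]
        rw [this]
        exact T4 (by norm_num)
      · have hn2 : 2 ≤ n' := by omega
        have hcard : (2 * n').primeFactors.card = n'.primeFactors.card + 1 := by
          rw [Nat.primeFactors_mul (by norm_num) hn'0, Nat.prime_two.primeFactors,
            Finset.card_union_of_disjoint, Finset.card_singleton, add_comm]
          rw [Finset.disjoint_singleton_left]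
          intro h2
          have := Nat.dvd_of_mem_primeFactors h2
          exact (Nat.not_even_iff_odd.mpr hodd) (even_iff_two_dvd.mpr this)
        rw [hcard]
        apply (pr_T n' hn2 ?_).2 hodd
        intro p hp hpn
        have hp2 : p ≠ 2 := by
          rintro rfl
          exact (Nat.not_even_iff_odd.mpr hodd) (even_iff_two_dvd.mpr hpn)
        have h3 := hfac p hp hp2 (hpn.mul_left 2)
        rw [Nat.factorization_mul (by norm_num) hn'0] at h3
        simp only [Finsupp.add_apply] at h3
        have : (Nat.factorization 2) p = 0 := by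
          rw [Nat.prime_two.factorization, Finsupp.single_eq_of_ne hp2]
        omega
    · apply (pr_T n hn ?_).1
      intro p hp hpn
      by_cases hp2 : p = 2
      · subst hp2
        have := (Nat.prime_two.dvd_iff_one_le_factorization hn0).mp hpn
        omega
      · exact hfac p hp hp2 hpn

theorem small_mem (n : ℕ) (hn : 2 ≤ n) (k : ℕ) (hk : 1 ≤ k) (hk' : k ≤ n.primeFactors.card) :
    k ∈ determiningSet (DihedralGroup n) := by
  have hn0 : n ≠ 0 := by omega
  obtain ⟨N, h1, h2, h3⟩ := parts n hn0 k
    (fun p => ⟨min (n.primeFactors.equivFin p : ℕ) (k - 1), by omega⟩) (by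
      intro i
      refine ⟨n.primeFactors.equivFin.symm ⟨i, by omega⟩, ?_⟩
      apply Fin.ext
      simp only [Equiv.apply_symm_apply]
      have := i.2
      omega)
  have := T1 h1 h2 (by omega)
  rwa [h3] at this

theorem det_sub_base (G : Type) [Group G] : determiningSet G ⊆ baseSizeSet G := by
  rintro b ⟨V, hV, act, Γ, hf, _, hb⟩
  exact ⟨V, hV, act, hf, hb⟩

/-- The base size sets and the determining sets of all dihedral groups. -/
theorem result : ∀ n : ℕ, 2 ≤ n →
    baseSizeSet (DihedralGroup n) = Set.Icc 1 (n.primeFactors.card + 1) ∧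
    (Good n → determiningSet (DihedralGroup n) = Set.Icc 1 (n.primeFactors.card + 1)) ∧
    (¬ Good n → determiningSet (DihedralGroup n) = Set.Icc 1 n.primeFactors.card) ∧
    (determiningSet (DihedralGroup n) = baseSizeSet (DihedralGroup n) ↔ Good n) := by
  intro n hn
  have hn0 : n ≠ 0 := by omega
  have hωpos : 0 < n.primeFactors.card := by
    obtain ⟨p, hp, hpn⟩ := Nat.exists_prime_and_dvd (by omega : n ≠ 1)
    exact Finset.card_pos.mpr ⟨p, Nat.mem_primeFactors.mpr ⟨hp, hpn, hn0⟩⟩
  have hupper : baseSizeSet (DihedralGroup n) ⊆ Set.Icc 1 (n.primeFactors.card + 1) := by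
    rintro b ⟨S, hS, act, hf, rfl⟩
    exact U1 hn
  have hB : baseSizeSet (DihedralGroup n) = Set.Icc 1 (n.primeFactors.card + 1) := by
    apply Set.Subset.antisymm hupper
    rintro k ⟨hk1, hk2⟩
    rcases Nat.lt_or_ge n.primeFactors.card k with h | h
    · have : k = n.primeFactors.card + 1 := by omega
      subst this
      obtain ⟨N, h1, h2, h3⟩ := parts n hn0 n.primeFactors.card n.primeFactors.equivFin
        n.primeFactors.equivFin.surjective
      have := T3 h1 h2 hωpos
      rwa [h3] at this
    · exact det_sub_base _ (small_mem n hn k hk1 h)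
  have hG : Good n → determiningSet (DihedralGroup n) = Set.Icc 1 (n.primeFactors.card + 1) := by
    intro hg
    apply Set.Subset.antisymm ((det_sub_base _).trans hupper)
    rintro k ⟨hk1, hk2⟩
    rcases Nat.lt_or_ge n.primeFactors.card k with h | h
    · have : k = n.primeFactors.card + 1 := by omega
      subst this
      exact good_mem n hn hg
    · exact small_mem n hn k hk1 h
  have hN : ¬ Good n → determiningSet (DihedralGroup n) = Set.Icc 1 n.primeFactors.card := by
    intro hg
    unfold Good at hg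
    push Not at hg
    obtain ⟨hg1, hg2, q, hq, hq2, hqn, hqq⟩ := hg
    apply Set.Subset.antisymm
    · rintro b ⟨V, hV, act, Γ, hf, hΓ, rfl⟩
      refine ⟨(U1 hn).1, ?_⟩
      exact U2 hn Γ hΓ hq hqn hqq hq2 (fun h => hg1 (h ▸ hq)) (hg2 q hq)
    · rintro k ⟨hk1, hk2⟩
      exact small_mem n hn k hk1 hk2
  refine ⟨hB, hG, hN, ?_⟩
  constructor
  · intro h
    by_contra hg
    rw [hN hg, hB] at h
    have : n.primeFactors.card + 1 ∈ Set.Icc 1 n.primeFactors.card := by
      rw [h]; exact ⟨by omega, le_rfl⟩
    have := this.2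
    omega
  · intro hg
    rw [hG hg, hB]

end A10

end Pool.Agent.Results.MP_4c7f2d_al.DihedralBases
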